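import Pool.Agent.Lib.FT.SpecD

set_option autoImplicit false

open MeasureTheory

noncomputable section

namespace Pool.Agent.FT

private theorem spec01 {D : Type} [CStarAlgebra D] [PartialOrder D] [StarOrderedRing D] {A : D}
    (h0 : 0 ≤ A) (h1 : A ≤ 1) : ∀ x ∈ spectrum ℝ A, x ∈ Set.Icc (0 : ℝ) 1 := by
  intro x hx
  refine ⟨spectrum_nonneg_of_nonneg h0 hx, ?_⟩
  exact (CFC.le_one_iff (R := ℝ) A).1 h1 x hx

private theorem near {D : Type} [CStarAlgebra D] [PartialOrder D] [StarOrderedRing D] {A : D}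
    (h0 : 0 ≤ A) (h1 : A ≤ 1) {F : ℝ → ℝ} (hF : Continuous F) {p : Polynomial ℝ} {η : ℝ} (hη : 0 ≤ η)
    (hp : ∀ x ∈ Set.Icc (0 : ℝ) 1, |p.eval x - F x| < η) :
    ‖cfc F A - Polynomial.aeval A p‖ ≤ η := by
  have hA : IsSelfAdjoint A := IsSelfAdjoint.of_nonneg h0
  rw [← cfc_polynomial p A hA, ← cfc_sub F p.eval A hF.continuousOn p.continuous.continuousOn]
  refine norm_cfc_le hη fun x hx => ?_
  rw [Real.norm_eq_abs, abs_sub_comm]
  exact (hp x (spec01 h0 h1 x hx)).le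

private theorem norm1 {D : Type} [CStarAlgebra D] [PartialOrder D] [StarOrderedRing D] {A : D}
    (h0 : 0 ≤ A) (h1 : A ≤ 1) : ‖A‖ ≤ 1 := (CStarAlgebra.norm_le_one_iff_of_nonneg A h0).2 h1

private theorem normF {D : Type} [CStarAlgebra D] [PartialOrder D] [StarOrderedRing D] {A : D}
    (h0 : 0 ≤ A) (h1 : A ≤ 1) {F : ℝ → ℝ} {c : ℝ} (hc : 0 ≤ c)
    (h : ∀ x ∈ Set.Icc (0 : ℝ) 1, |F x| ≤ c) : ‖cfc F A‖ ≤ c :=
  norm_cfc_le hc fun x hx => h x (spec01 h0 h1 x hx)

private theorem n2_rsmul {D : Type} [CStarAlgebra D] {τ : D →ₗ[ℂ] ℂ} (h : IsState τ) (r : ℝ) (x : D) :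
    n2 τ (r • x) = |r| * n2 τ x := by
  rw [← Complex.coe_smul, h.n2_smul, Complex.norm_real, Real.norm_eq_abs]

private theorem pow_comm {D : Type} [CStarAlgebra D] {τ : D →ₗ[ℂ] ℂ} (h : IsFTrace τ) {A : D} (hA : ‖A‖ ≤ 1)
    (X : D) (i : ℕ) : n2 τ (A ^ i * X - X * A ^ i) ≤ i * n2 τ (A * X - X * A) := by
  induction i with
  | zero => simp [n2_zero]
  | succ i ih =>
    have e : A ^ (i + 1) * X - X * A ^ (i + 1) =
        A * (A ^ i * X - X * A ^ i) + (A * X - X * A) * A ^ i := by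
      rw [pow_succ']
      noncomm_ring
    have hAi : ‖A ^ i‖ ≤ 1 := by
      rcases Nat.eq_zero_or_pos i with hi | hi
      · subst hi
        rw [pow_zero]
        rcases subsingleton_or_nontrivial D with hs | hs
        · rw [Subsingleton.elim (1 : D) 0, norm_zero]
          exact zero_le_one
        · exact (CStarRing.norm_one (E := D)).le
      · exact (norm_pow_le' A hi).trans (pow_le_one₀ (norm_nonneg _) hA)
    rw [e]
    have h1 := h.state.n2_add_le (A * (A ^ i * X - X * A ^ i)) ((A * X - X * A) * A ^ i)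
    have h2 := h.state.n2_mul_le A (A ^ i * X - X * A ^ i)
    have h3 := h.n2_mul_le' (A * X - X * A) (A ^ i)
    have h4 : ‖A‖ * n2 τ (A ^ i * X - X * A ^ i) ≤ 1 * n2 τ (A ^ i * X - X * A ^ i) :=
      mul_le_mul_of_nonneg_right hA (n2_nonneg _ _)
    have h5 : n2 τ (A * X - X * A) * ‖A ^ i‖ ≤ n2 τ (A * X - X * A) * 1 :=
      mul_le_mul_of_nonneg_left hAi (n2_nonneg _ _)
    push_cast
    linarith

private def cp (p : Polynomial ℝ) : ℝ := ∑ i ∈ Finset.range (p.natDegree + 1), |p.coeff i| * i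

private theorem cp_nonneg (p : Polynomial ℝ) : 0 ≤ cp p := by
  unfold cp
  positivity

private theorem poly_comm {D : Type} [CStarAlgebra D] {τ : D →ₗ[ℂ] ℂ} (h : IsFTrace τ) {A : D}
    (hA : ‖A‖ ≤ 1) (X : D) (p : Polynomial ℝ) :
    n2 τ (Polynomial.aeval A p * X - X * Polynomial.aeval A p) ≤ cp p * n2 τ (A * X - X * A) := by
  have e : Polynomial.aeval A p * X - X * Polynomial.aeval A p =
      ∑ i ∈ Finset.range (p.natDegree + 1), p.coeff i • (A ^ i * X - X * A ^ i) := by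
    rw [Polynomial.aeval_eq_sum_range, Finset.sum_mul, Finset.mul_sum, ← Finset.sum_sub_distrib]
    refine Finset.sum_congr rfl fun i _ => ?_
    rw [smul_mul_assoc, mul_smul_comm, smul_sub]
  rw [e]
  refine (h.state.n2_sum_le _ _).trans ?_
  unfold cp
  rw [Finset.sum_mul]
  refine Finset.sum_le_sum fun i _ => ?_
  rw [n2_rsmul h.state, mul_assoc]
  exact mul_le_mul_of_nonneg_left (pow_comm h hA X i) (abs_nonneg _)

private theorem bdd {F : ℝ → ℝ} (hF : Continuous F) : ∃ c : ℝ, 0 ≤ c ∧ ∀ x ∈ Set.Icc (0 : ℝ) 1, |F x| ≤ c := by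
  obtain ⟨c, hc⟩ := (isCompact_Icc (a := (0 : ℝ)) (b := 1)).exists_bound_of_continuousOn hF.continuousOn
  refine ⟨max c 0, le_max_right _ _, fun x hx => ?_⟩
  have := hc x hx
  rw [Real.norm_eq_abs] at this
  exact this.trans (le_max_left _ _)

theorem pCOM : S_COM := by
  intro F G hF hG ε hε
  obtain ⟨cF, hcF, hF1⟩ := bdd hF
  obtain ⟨cG, hcG, hG1⟩ := bdd hG
  set η : ℝ := min 1 (ε / (4 * (cF + cG + 1))) with hη
  have hη0 : 0 < η := lt_min one_pos (by positivity)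
  have hη1 : η ≤ 1 := min_le_left _ _
  have hη2 : η * (4 * (cF + cG + 1)) ≤ ε := by
    have := min_le_right (1 : ℝ) (ε / (4 * (cF + cG + 1)))
    rwa [← hη, le_div_iff₀ (by positivity)] at this
  obtain ⟨p, hp⟩ := exists_polynomial_near_of_continuousOn 0 1 F hF.continuousOn η hη0
  obtain ⟨q, hq⟩ := exists_polynomial_near_of_continuousOn 0 1 G hG.continuousOn η hη0
  refine ⟨ε / (2 * (cp p * cp q + 1)), by have := cp_nonneg p; have := cp_nonneg q; positivity, ?_⟩
  intro D _ _ _ τ hτ A B hA0 hA1 hB0 hB1 hκ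
  have nf := near hA0 hA1 hF hη0.le hp
  have ng := near hB0 hB1 hG hη0.le hq
  have bf := normF hA0 hA1 hcF hF1
  have bg := normF hB0 hB1 hcG hG1
  set f := cfc F A
  set g := cfc G B
  set P := Polynomial.aeval A p
  set Q := Polynomial.aeval B q
  have e : f * g - g * f = ((f - P) * g - g * (f - P)) + (P * (g - Q) - (g - Q) * P) + (P * Q - Q * P) := by
    noncomm_ring
  have bP : ‖P‖ ≤ cF + η := by
    have : P = f - (f - P) := by abel
    rw [this]
    exact (norm_sub_le _ _).trans (add_le_add bf nf)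
  have h1 : n2 τ ((f - P) * g - g * (f - P)) ≤ 2 * (η * cG) := by
    refine (hτ.state.n2_le_norm _).trans ((norm_sub_le _ _).trans ?_)
    have k1 := norm_mul_le (f - P) g
    have k2 := norm_mul_le g (f - P)
    have k3 : ‖f - P‖ * ‖g‖ ≤ η * cG := mul_le_mul nf bg (norm_nonneg _) hη0.le
    nlinarith [mul_comm ‖g‖ ‖f - P‖]
  have h2 : n2 τ (P * (g - Q) - (g - Q) * P) ≤ 2 * ((cF + η) * η) := by
    refine (hτ.state.n2_le_norm _).trans ((norm_sub_le _ _).trans ?_)
    have k1 := norm_mul_le P (g - Q)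
    have k2 := norm_mul_le (g - Q) P
    have k3 : ‖P‖ * ‖g - Q‖ ≤ (cF + η) * η := mul_le_mul bP ng (norm_nonneg _) (by positivity)
    nlinarith [mul_comm ‖P‖ ‖g - Q‖]
  have h3 : n2 τ (P * Q - Q * P) ≤ cp p * (cp q * n2 τ (A * B - B * A)) := by
    refine (poly_comm hτ (norm1 hA0 hA1) Q p).trans (mul_le_mul_of_nonneg_left ?_ (cp_nonneg p))
    have k1 := poly_comm hτ (norm1 hB0 hB1) A q
    have k2 : n2 τ (A * Q - Q * A) = n2 τ (Q * A - A * Q) := by
      rw [← hτ.state.n2_neg, neg_sub]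
    have k3 : n2 τ (B * A - A * B) = n2 τ (A * B - B * A) := by
      rw [← hτ.state.n2_neg, neg_sub]
    rw [k2, ← k3]
    exact k1
  have h4 : cp p * (cp q * n2 τ (A * B - B * A)) ≤ ε / 2 := by
    have k0 : 0 ≤ cp p * cp q := mul_nonneg (cp_nonneg p) (cp_nonneg q)
    have k1 : cp p * cp q * n2 τ (A * B - B * A) ≤ cp p * cp q * (ε / (2 * (cp p * cp q + 1))) :=
      mul_le_mul_of_nonneg_left hκ k0
    have k2 : cp p * cp q * (ε / (2 * (cp p * cp q + 1))) ≤ ε / 2 := by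
      rw [mul_div_assoc', div_le_div_iff₀ (by positivity) (by norm_num)]
      nlinarith
    calc cp p * (cp q * n2 τ (A * B - B * A)) = cp p * cp q * n2 τ (A * B - B * A) := by ring
      _ ≤ ε / 2 := k1.trans k2
  rw [e]
  have h5 := hτ.state.n2_add_le (((f - P) * g - g * (f - P)) + (P * (g - Q) - (g - Q) * P)) (P * Q - Q * P)
  have h6 := hτ.state.n2_add_le ((f - P) * g - g * (f - P)) (P * (g - Q) - (g - Q) * P)
  have h7 : η * η ≤ η := by nlinarith
  nlinarith

end Pool.Agent.FT
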