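import Pool.Agent.Lib.FT.SpecD

set_option autoImplicit false

open MeasureTheory

noncomputable section

namespace Pool.Agent.FT

private theorem spec01 {D : Type} [CStarAlgebra D] [PartialOrder D] [StarOrderedRing D] {A : D}
    (h0 : 0 ≤ A) (h1 : A ≤ 1) : ∀ x ∈ spectrum ℝ A, x ∈ Set.Icc (0 : ℝ) 1 := by
  intro x hx
  refine ⟨spectrum_nonneg_of_nonneg h0 hx, ?_⟩
  exact (CFC.le_one_iff (R := ℝ) A).1 h1 x hx

private theorem near {D : Type} [CStarAlgebra D] [PartialOrder D] [StarOrderedRing D] {A : D}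
    (h0 : 0 ≤ A) (h1 : A ≤ 1) {F : ℝ → ℝ} (hF : Continuous F) {p : Polynomial ℝ} {η : ℝ} (hη : 0 ≤ η)
    (hp : ∀ x ∈ Set.Icc (0 : ℝ) 1, |p.eval x - F x| < η) :
    ‖cfc F A - Polynomial.aeval A p‖ ≤ η := by
  have hA : IsSelfAdjoint A := IsSelfAdjoint.of_nonneg h0
  rw [← cfc_polynomial p A hA, ← cfc_sub F p.eval A hF.continuousOn p.continuous.continuousOn]
  refine norm_cfc_le hη fun x hx => ?_
  rw [Real.norm_eq_abs, abs_sub_comm]
  exact (hp x (spec01 h0 h1 x hx)).le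

private theorem norm1 {D : Type} [CStarAlgebra D] [PartialOrder D] [StarOrderedRing D] {A : D}
    (h0 : 0 ≤ A) (h1 : A ≤ 1) : ‖A‖ ≤ 1 := (CStarAlgebra.norm_le_one_iff_of_nonneg A h0).2 h1

private theorem n2_rsmul {D : Type} [CStarAlgebra D] {τ : D →ₗ[ℂ] ℂ} (h : IsState τ) (r : ℝ) (x : D) :
    n2 τ (r • x) = |r| * n2 τ x := by
  rw [← Complex.coe_smul, h.n2_smul, Complex.norm_real, Real.norm_eq_abs]

private theorem norm_pow1 {D : Type} [CStarAlgebra D] {A : D} (hA : ‖A‖ ≤ 1) (i : ℕ) : ‖A ^ i‖ ≤ 1 := by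
  rcases Nat.eq_zero_or_pos i with hi | hi
  · subst hi
    rw [pow_zero]
    rcases subsingleton_or_nontrivial D with hs | hs
    · rw [Subsingleton.elim (1 : D) 0, norm_zero]
      exact zero_le_one
    · exact (CStarRing.norm_one (E := D)).le
  · exact (norm_pow_le' A hi).trans (pow_le_one₀ (norm_nonneg _) hA)

private theorem pow_diff {D : Type} [CStarAlgebra D] {τ : D →ₗ[ℂ] ℂ} (h : IsFTrace τ) {A B : D}
    (hA : ‖A‖ ≤ 1) (hB : ‖B‖ ≤ 1) (i : ℕ) :
    n2 τ (A ^ i - B ^ i) ≤ i * n2 τ (A - B) ∧ ‖A ^ i - B ^ i‖ ≤ i * ‖A - B‖ := by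
  induction i with
  | zero => simp [n2_zero]
  | succ i ih =>
    have e : A ^ (i + 1) - B ^ (i + 1) = A * (A ^ i - B ^ i) + (A - B) * B ^ i := by
      rw [pow_succ', pow_succ']
      noncomm_ring
    have hBi := norm_pow1 hB i
    rw [e]
    push_cast
    constructor
    · have h1 := h.state.n2_add_le (A * (A ^ i - B ^ i)) ((A - B) * B ^ i)
      have h2 := h.state.n2_mul_le A (A ^ i - B ^ i)
      have h3 := h.n2_mul_le' (A - B) (B ^ i)
      have h4 : ‖A‖ * n2 τ (A ^ i - B ^ i) ≤ 1 * n2 τ (A ^ i - B ^ i) :=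
        mul_le_mul_of_nonneg_right hA (n2_nonneg _ _)
      have h5 : n2 τ (A - B) * ‖B ^ i‖ ≤ n2 τ (A - B) * 1 :=
        mul_le_mul_of_nonneg_left hBi (n2_nonneg _ _)
      linarith [ih.1]
    · have h1 := norm_add_le (A * (A ^ i - B ^ i)) ((A - B) * B ^ i)
      have h2 := norm_mul_le A (A ^ i - B ^ i)
      have h3 := norm_mul_le (A - B) (B ^ i)
      have h4 : ‖A‖ * ‖A ^ i - B ^ i‖ ≤ 1 * ‖A ^ i - B ^ i‖ :=
        mul_le_mul_of_nonneg_right hA (norm_nonneg _)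
      have h5 : ‖A - B‖ * ‖B ^ i‖ ≤ ‖A - B‖ * 1 :=
        mul_le_mul_of_nonneg_left hBi (norm_nonneg _)
      linarith [ih.2]

private def cp (p : Polynomial ℝ) : ℝ := ∑ i ∈ Finset.range (p.natDegree + 1), |p.coeff i| * i

private theorem cp_nonneg (p : Polynomial ℝ) : 0 ≤ cp p := by
  unfold cp
  positivity

private theorem poly_diff {D : Type} [CStarAlgebra D] {τ : D →ₗ[ℂ] ℂ} (h : IsFTrace τ) {A B : D}
    (hA : ‖A‖ ≤ 1) (hB : ‖B‖ ≤ 1) (p : Polynomial ℝ) :
    n2 τ (Polynomial.aeval A p - Polynomial.aeval B p) ≤ cp p * n2 τ (A - B) ∧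
      ‖Polynomial.aeval A p - Polynomial.aeval B p‖ ≤ cp p * ‖A - B‖ := by
  have e : Polynomial.aeval A p - Polynomial.aeval B p =
      ∑ i ∈ Finset.range (p.natDegree + 1), p.coeff i • (A ^ i - B ^ i) := by
    rw [Polynomial.aeval_eq_sum_range, Polynomial.aeval_eq_sum_range, ← Finset.sum_sub_distrib]
    refine Finset.sum_congr rfl fun i _ => ?_
    rw [smul_sub]
  rw [e]
  unfold cp
  rw [Finset.sum_mul, Finset.sum_mul]
  constructor
  · refine (h.state.n2_sum_le _ _).trans (Finset.sum_le_sum fun i _ => ?_)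
    rw [n2_rsmul h.state, mul_assoc]
    exact mul_le_mul_of_nonneg_left (pow_diff h hA hB i).1 (abs_nonneg _)
  · refine (norm_sum_le _ _).trans (Finset.sum_le_sum fun i _ => ?_)
    rw [norm_smul, mul_assoc, Real.norm_eq_abs]
    exact mul_le_mul_of_nonneg_left (pow_diff h hA hB i).2 (abs_nonneg _)

theorem pCTN : S_CTN := by
  intro F hF ε hε
  obtain ⟨p, hp⟩ := exists_polynomial_near_of_continuousOn 0 1 F hF.continuousOn (ε / 4) (by positivity)
  refine ⟨ε / (2 * (cp p + 1)), by have := cp_nonneg p; positivity, ?_⟩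
  intro D _ _ _ τ hτ A B hA0 hA1 hB0 hB1
  have nf := near hA0 hA1 hF (by positivity) hp
  have ng := near hB0 hB1 hF (by positivity) hp
  obtain ⟨d1, d2⟩ := poly_diff hτ (norm1 hA0 hA1) (norm1 hB0 hB1) p
  set f := cfc F A
  set g := cfc F B
  set P := Polynomial.aeval A p
  set Q := Polynomial.aeval B p
  have e : f - g = ((f - P) - (g - Q)) + (P - Q) := by abel
  have hc := cp_nonneg p
  have k2 : cp p * (ε / (2 * (cp p + 1))) ≤ ε / 2 := by
    rw [mul_div_assoc', div_le_div_iff₀ (by positivity) (by norm_num)]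
    nlinarith
  constructor
  · intro hκ
    rw [e]
    have h1 := hτ.state.n2_add_le ((f - P) - (g - Q)) (P - Q)
    have h2 := (hτ.state.n2_le_norm ((f - P) - (g - Q))).trans (norm_sub_le _ _)
    have h3 : cp p * n2 τ (A - B) ≤ cp p * (ε / (2 * (cp p + 1))) := mul_le_mul_of_nonneg_left hκ hc
    linarith
  · intro hκ
    rw [e]
    have h1 := norm_add_le ((f - P) - (g - Q)) (P - Q)
    have h2 := norm_sub_le (f - P) (g - Q)
    have h3 : cp p * ‖A - B‖ ≤ cp p * (ε / (2 * (cp p + 1))) := mul_le_mul_of_nonneg_left hκ hc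
    linarith

end Pool.Agent.FT
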