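import Pool.Agent.Lib.FT.SpecD

/-!
# C44, block D, module EXP2: second order expansion
-/

set_option autoImplicit false

open MeasureTheory

noncomputable section

namespace Pool.Agent.FT

private theorem exp2_tail {D : Type} [CStarAlgebra D] (x : D) (hx : ‖x‖ ≤ 1) :
    ‖NormedSpace.exp x - (1 + x + (1 / 2 : ℝ) • (x * x))‖ ≤ Real.exp 1 * ‖x‖ ^ 3 := by
  have h1 : HasSum (fun n : ℕ => ((n.factorial : ℝ)⁻¹) • x ^ n) (NormedSpace.exp x) :=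
    NormedSpace.exp_series_hasSum_exp' x
  have h2 := (hasSum_nat_add_iff' 3).2 h1
  have h3 : ∑ i ∈ Finset.range 3, ((i.factorial : ℝ)⁻¹) • x ^ i =
      1 + x + (1 / 2 : ℝ) • (x * x) := by
    rw [Finset.sum_range_succ, Finset.sum_range_succ, Finset.sum_range_succ, Finset.sum_range_zero]
    simp [Nat.factorial, sq]
  rw [h3] at h2
  have h4 : HasSum (fun n : ℕ => ((n.factorial : ℝ)⁻¹) * ‖x‖ ^ 3) (Real.exp 1 * ‖x‖ ^ 3) := by
    have h5 : HasSum (fun n : ℕ => ((n.factorial : ℝ)⁻¹) • (1 : ℝ) ^ n) (NormedSpace.exp (1 : ℝ)) :=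
      NormedSpace.exp_series_hasSum_exp' (1 : ℝ)
    rw [← Real.exp_eq_exp_ℝ] at h5
    have h6 := h5.mul_right (‖x‖ ^ 3)
    have h7 : (fun n : ℕ => ((n.factorial : ℝ)⁻¹) * ‖x‖ ^ 3) =
        fun n : ℕ => (((n.factorial : ℝ)⁻¹) • (1 : ℝ) ^ n) * ‖x‖ ^ 3 := by
      funext n
      rw [one_pow, smul_eq_mul, mul_one]
    rw [h7]
    exact h6
  refine h2.norm_le_of_bounded h4 (fun n => ?_)
  rw [norm_smul, norm_inv, Real.norm_natCast]
  have h7 : ‖x ^ (n + 3)‖ ≤ ‖x‖ ^ 3 := by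
    refine (norm_pow_le' x (by omega)).trans ?_
    rw [pow_add]
    calc ‖x‖ ^ n * ‖x‖ ^ 3 ≤ 1 * ‖x‖ ^ 3 :=
          mul_le_mul_of_nonneg_right (pow_le_one₀ (norm_nonneg x) hx) (by positivity)
      _ = ‖x‖ ^ 3 := one_mul _
  have h8 : (((n + 3).factorial : ℝ))⁻¹ ≤ ((n.factorial : ℝ))⁻¹ := by
    apply inv_anti₀ (by exact_mod_cast Nat.factorial_pos n)
    exact_mod_cast Nat.factorial_le (by omega)
  exact mul_le_mul h8 h7 (norm_nonneg _) (by positivity)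

private theorem exp2_bd {D : Type} [CStarAlgebra D] {x y : D} {a b : ℝ} (hx : ‖x‖ ≤ a)
    (hy : ‖y‖ ≤ b) (ha : 0 ≤ a) : ‖x * y‖ ≤ a * b :=
  (norm_mul_le x y).trans (mul_le_mul hx hy (norm_nonneg _) ha)

private theorem exp2_smul {D : Type} [CStarAlgebra D] {x : D} {a c : ℝ} (hc : 0 ≤ c) (hx : ‖x‖ ≤ a) :
    ‖c • x‖ ≤ c * a := by
  rw [norm_smul, Real.norm_of_nonneg hc]
  exact mul_le_mul_of_nonneg_left hx hc

theorem pEXP2 : S_EXP2 := by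
  have he0 : 0 < Real.exp 1 := Real.exp_pos 1
  refine ⟨5 / 4 + Real.exp 1 * (5 + Real.exp 1), by positivity, ?_⟩
  intro D _ K A t hK hA ht0 ht1
  have h1 := exp2_tail (t • K) (by
    rw [norm_smul, Real.norm_of_nonneg ht0]
    exact mul_le_one₀ ht1 (norm_nonneg _) hK)
  have h2 := exp2_tail (-(t • K)) (by
    rw [norm_neg, norm_smul, Real.norm_of_nonneg ht0]
    exact mul_le_one₀ ht1 (norm_nonneg _) hK)
  rw [norm_neg] at h2
  have h3 : ‖t • K‖ ^ 3 ≤ t ^ 3 := by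
    rw [norm_smul, Real.norm_of_nonneg ht0]
    exact pow_le_pow_left₀ (by positivity) (by nlinarith [norm_nonneg K]) 3
  set R := NormedSpace.exp (t • K) - (1 + t • K + (1 / 2 : ℝ) • ((t • K) * (t • K))) with hR
  set R' := NormedSpace.exp (-(t • K)) -
    (1 + -(t • K) + (1 / 2 : ℝ) • (-(t • K) * -(t • K))) with hR'
  have hE : NormedSpace.exp (t • K) = 1 + t • K + (1 / 2 : ℝ) • ((t • K) * (t • K)) + R := by
    rw [hR]; abel
  have hE' : NormedSpace.exp (-(t • K)) =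
      1 + -(t • K) + (1 / 2 : ℝ) • (-(t • K) * -(t • K)) + R' := by
    rw [hR']; abel
  have hRn : ‖R‖ ≤ Real.exp 1 * t ^ 3 := h1.trans (mul_le_mul_of_nonneg_left h3 he0.le)
  have hRn' : ‖R'‖ ≤ Real.exp 1 * t ^ 3 := h2.trans (mul_le_mul_of_nonneg_left h3 he0.le)
  clear_value R R'
  set ρ := Real.exp 1 * t ^ 3 with hρ
  have hρ0 : 0 ≤ ρ := by positivity
  have ht3 : 0 ≤ t ^ 3 := by positivity
  have ht31 : t ^ 3 ≤ 1 := pow_le_one₀ ht0 ht1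
  have hρ1 : ρ ≤ Real.exp 1 := by
    rw [hρ]
    calc Real.exp 1 * t ^ 3 ≤ Real.exp 1 * 1 := mul_le_mul_of_nonneg_left ht31 he0.le
      _ = Real.exp 1 := mul_one _
  have hid : NormedSpace.exp (t • K) * A * NormedSpace.exp (-(t • K)) -
      (A + t • (K * A - A * K) + (t ^ 2 / 2) • (K * (K * A - A * K) - (K * A - A * K) * K)) =
      (t ^ 3 / 2) • (K * A * K * K - K * K * A * K) + (t ^ 4 / 4) • (K * K * A * K * K) +
      (A * R' + t • (K * A * R') + (t ^ 2 / 2) • (K * K * A * R')) +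
      (R * A - t • (R * A * K) + (t ^ 2 / 2) • (R * A * K * K) + R * A * R') := by
    rw [hE, hE']
    simp only [add_mul, mul_add, smul_mul_assoc, mul_smul_comm, smul_add, smul_sub, smul_smul,
      mul_assoc, sub_mul, mul_sub, one_mul, mul_one, neg_mul, mul_neg, smul_neg, neg_neg]
    module
  rw [hid]
  have hKA : ‖K * A‖ ≤ 1 * 1 := exp2_bd hK hA zero_le_one
  have hKK : ‖K * K‖ ≤ 1 * 1 := exp2_bd hK hK zero_le_one
  have hKKA : ‖K * K * A‖ ≤ 1 * 1 * 1 := exp2_bd hKK hA (by norm_num)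
  have b1 : ‖K * A * K * K‖ ≤ 1 * 1 * 1 * 1 :=
    exp2_bd (exp2_bd hKA hK (by norm_num)) hK (by norm_num)
  have b2 : ‖K * K * A * K‖ ≤ 1 * 1 * 1 * 1 := exp2_bd hKKA hK (by norm_num)
  have b3 : ‖K * K * A * K * K‖ ≤ 1 * 1 * 1 * 1 * 1 := exp2_bd b2 hK (by norm_num)
  have b4 : ‖A * R'‖ ≤ 1 * ρ := exp2_bd hA hRn' zero_le_one
  have b5 : ‖K * A * R'‖ ≤ 1 * 1 * ρ := exp2_bd hKA hRn' (by norm_num)
  have b6 : ‖K * K * A * R'‖ ≤ 1 * 1 * 1 * ρ := exp2_bd hKKA hRn' (by norm_num)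
  have b7 : ‖R * A‖ ≤ ρ * 1 := exp2_bd hRn hA hρ0
  have b8 : ‖R * A * K‖ ≤ ρ * 1 * 1 := exp2_bd b7 hK (by linarith)
  have b9 : ‖R * A * K * K‖ ≤ ρ * 1 * 1 * 1 := exp2_bd b8 hK (by linarith)
  have b10 : ‖R * A * R'‖ ≤ ρ * 1 * ρ := exp2_bd b7 hRn' (by linarith)
  have c1 : ‖(t ^ 3 / 2) • (K * A * K * K - K * K * A * K)‖ ≤ t ^ 3 / 2 * 2 :=
    exp2_smul (by positivity) ((norm_sub_le _ _).trans (by linarith))
  have c2 : ‖(t ^ 4 / 4) • (K * K * A * K * K)‖ ≤ t ^ 4 / 4 * 1 :=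
    exp2_smul (by positivity) (by linarith)
  have c3 : ‖t • (K * A * R')‖ ≤ t * ρ := exp2_smul ht0 (by linarith)
  have c4 : ‖(t ^ 2 / 2) • (K * K * A * R')‖ ≤ t ^ 2 / 2 * ρ :=
    exp2_smul (by positivity) (by linarith)
  have c5 : ‖t • (R * A * K)‖ ≤ t * ρ := exp2_smul ht0 (by linarith)
  have c6 : ‖(t ^ 2 / 2) • (R * A * K * K)‖ ≤ t ^ 2 / 2 * ρ :=
    exp2_smul (by positivity) (by linarith)
  have ht2 : t ^ 2 ≤ 1 := pow_le_one₀ ht0 ht1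
  have ht4 : t ^ 4 ≤ t ^ 3 := by
    have : t ^ 4 = t ^ 3 * t := by ring
    rw [this]
    exact mul_le_of_le_one_right ht3 ht1
  have d1 : t * ρ ≤ ρ := mul_le_of_le_one_left hρ0 ht1
  have d2 : t ^ 2 / 2 * ρ ≤ ρ / 2 := by nlinarith
  have d3 : ρ * ρ ≤ ρ * Real.exp 1 := mul_le_mul_of_nonneg_left hρ1 hρ0
  calc _ ≤ ‖(t ^ 3 / 2) • (K * A * K * K - K * K * A * K)‖ + ‖(t ^ 4 / 4) • (K * K * A * K * K)‖ +
        (‖A * R'‖ + ‖t • (K * A * R')‖ + ‖(t ^ 2 / 2) • (K * K * A * R')‖) +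
        (‖R * A‖ + ‖t • (R * A * K)‖ + ‖(t ^ 2 / 2) • (R * A * K * K)‖ + ‖R * A * R'‖) := by
        refine (norm_add_le _ _).trans (add_le_add ((norm_add_le _ _).trans (add_le_add
          (norm_add_le _ _) ((norm_add_le _ _).trans (add_le_add (norm_add_le _ _) le_rfl)))) ?_)
        refine (norm_add_le _ _).trans (add_le_add ((norm_add_le _ _).trans (add_le_add
          (norm_sub_le _ _) le_rfl)) le_rfl)
    _ ≤ 5 / 4 * t ^ 3 + ρ * (5 + Real.exp 1) := by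
        have e1 : ρ * (5 + Real.exp 1) = 5 * ρ + ρ * Real.exp 1 := by ring
        rw [e1]
        linarith
    _ = (5 / 4 + Real.exp 1 * (5 + Real.exp 1)) * t ^ 3 := by
        rw [hρ]
        ring

end Pool.Agent.FT
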