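import Pool.Agent.Lib.FT.SpecD

/-!
# C44, D5: the quadratic form on mixing elements
-/

set_option autoImplicit false

noncomputable section

namespace Pool.Agent.FT

theorem pFM : S_FM := by
  intro D _ τ hτ P g hmix A hA B hB a ha b hb hsA hsB y K hy hK
  have hF : ∀ X ∈ P, ∀ Z ∈ P, τ (X * y * Z * star y) =
      τ (star a * X * a) * τ (b * Z * star b) := by
    intro X hX Z hZ
    rw [← (hmix (star a * X * a) (mul_mem (mul_mem (star_mem ha) hX) ha) (b * Z * star b)
      (mul_mem (mul_mem hb hZ) (star_mem hb))).1]
    have e1 : X * y * Z * star y = (X * a * g * (b * Z * star b) * star g) * star a := by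
      rw [hy, star_mul, star_mul]
      simp only [mul_assoc]
    rw [e1, hτ.trace]
    congr 1
    simp only [mul_assoc]
  have hF0 : ∀ X ∈ P, ∀ Z ∈ P, τ (X * y * Z * y) = 0 := by
    intro X hX Z hZ
    rw [← (hmix (b * X * a) (mul_mem (mul_mem hb hX) ha) (b * Z * a)
      (mul_mem (mul_mem hb hZ) ha)).2]
    have e1 : X * y * Z * y = (X * a * g * (b * Z * a) * g) * b := by
      rw [hy]
      simp only [mul_assoc]
    rw [e1, hτ.trace]
    congr 1
    simp only [mul_assoc]
  have hF0' : ∀ X ∈ P, ∀ Z ∈ P, τ (X * star y * Z * star y) = 0 := by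
    intro X hX Z hZ
    have e1 : X * star y * Z * star y = star (y * star Z * y * star X) := by
      simp only [star_mul, star_star, mul_assoc]
    rw [e1, hτ.state.map_star]
    have e2 : τ (y * star Z * y * star X) = τ (star X * y * star Z * y) := by
      rw [hτ.trace]
      congr 1
      simp only [mul_assoc]
    rw [e2, hF0 _ (star_mem hX) _ (star_mem hZ), map_zero]
  have h1 : (1 : D) ∈ P := one_mem P
  have hAB : A * B ∈ P := mul_mem hA hB
  have hBA : B * A ∈ P := mul_mem hB hA
  -- the sixteen terms
  have t1 : τ (y * A * y * B) = 0 := by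
    rw [← hF0 B hB A hA, hτ.trace]
    congr 1
    simp only [mul_assoc]
  have t2 : τ (y * (A * B) * y) = 0 := by
    rw [← hF0 1 h1 (A * B) hAB, one_mul]
  have t3 : τ (A * y * y * B) = 0 := by
    rw [← hF0 (B * A) hBA 1 h1, hτ.trace]
    congr 1
    simp only [mul_assoc, one_mul]
  have t4 : τ (A * y * B * y) = 0 := hF0 A hA B hB
  have s1 : τ (star y * A * star y * B) = 0 := by
    rw [← hF0' B hB A hA, hτ.trace]
    congr 1
    simp only [mul_assoc]
  have s2 : τ (star y * (A * B) * star y) = 0 := by
    rw [← hF0' 1 h1 (A * B) hAB, one_mul]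
  have s3 : τ (A * star y * star y * B) = 0 := by
    rw [← hF0' (B * A) hBA 1 h1, hτ.trace]
    congr 1
    simp only [mul_assoc, one_mul]
  have s4 : τ (A * star y * B * star y) = 0 := hF0' A hA B hB
  have u1 : τ (y * A * star y * B) = τ (star a * B * a) * τ (b * A * star b) := by
    rw [← hF B hB A hA, hτ.trace]
    congr 1
    simp only [mul_assoc]
  have u2 : τ (y * (A * B) * star y) = τ (star a * a) * τ (b * A * B * star b) := by
    have := hF 1 h1 (A * B) hAB
    rw [one_mul, mul_one, ← mul_assoc b] at this
    exact this
  have u3 : τ (A * y * star y * B) = τ (star a * B * A * a) * τ (b * star b) := by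
    have := hF (B * A) hBA 1 h1
    rw [mul_one, mul_one, ← mul_assoc (star a)] at this
    rw [← this, hτ.trace]
    congr 1
    simp only [mul_assoc]
  have u4 : τ (A * y * B * star y) = τ (star a * A * a) * τ (b * B * star b) := hF A hA B hB
  have v1 : τ (star y * A * y * B) = τ (star a * A * a) * τ (b * B * star b) := by
    rw [← hF A hA B hB, hτ.trace (A * y * B)]
    congr 1
    simp only [mul_assoc]
  have v2 : τ (star y * (A * B) * y) = τ (star a * A * B * a) * τ (b * star b) := by
    have := hF (A * B) hAB 1 h1
    rw [mul_one, mul_one, ← mul_assoc (star a)] at this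
    rw [← this, hτ.trace (A * B * y)]
    congr 1
    simp only [mul_assoc]
  have v3 : τ (A * star y * y * B) = τ (star a * a) * τ (b * B * A * star b) := by
    have := hF 1 h1 (B * A) hBA
    rw [one_mul, mul_one, ← mul_assoc b] at this
    rw [← this]
    have e1 : A * star y * y * B = (A * star y) * (y * B) := by simp only [mul_assoc]
    rw [e1, hτ.trace]
    congr 1
    simp only [mul_assoc]
  have v4 : τ (A * star y * B * y) = τ (star a * B * a) * τ (b * A * star b) := by
    rw [← hF B hB A hA]
    have e1 : A * star y * B * y = (A * star y) * (B * y) := by simp only [mul_assoc]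
    rw [e1, hτ.trace]
    congr 1
    simp only [mul_assoc]
  have e1 : (K * A - A * K) * (K * B - B * K) = (1 / 4 : ℂ) •
      (((y - star y) * A - A * (y - star y)) * ((y - star y) * B - B * (y - star y))) := by
    rw [hK]
    simp only [smul_mul_assoc, mul_smul_comm, ← smul_sub, smul_smul]
    congr 1
    norm_num
  have e2 : ((y - star y) * A - A * (y - star y)) * ((y - star y) * B - B * (y - star y)) =
      (y * A * y * B - y * (A * B) * y - A * y * y * B + A * y * B * y)
      - (y * A * star y * B - y * (A * B) * star y - A * y * star y * B + A * y * B * star y)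
      - (star y * A * y * B - star y * (A * B) * y - A * star y * y * B + A * star y * B * y)
      + (star y * A * star y * B - star y * (A * B) * star y - A * star y * star y * B
        + A * star y * B * star y) := by
    noncomm_ring
  rw [e1, e2, map_smul]
  simp only [map_add, map_sub, t1, t2, t3, t4, s1, s2, s3, s4, u1, u2, u3, u4, v1, v2, v3, v4,
    smul_eq_mul]
  ring

end Pool.Agent.FT
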