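import Pool.Agent.Lib.FT.SpecD

/-!
# C44, block D, module S1: Lemma S1
-/

set_option autoImplicit false

open MeasureTheory

noncomputable section

namespace Pool.Agent.FT

section aux

variable {D : Type} [CStarAlgebra D] [PartialOrder D] [StarOrderedRing D]

private theorem s1_trace_pos {τ : D →ₗ[ℂ] ℂ} (hτ : IsFTrace τ) {X Y : D} (hX : 0 ≤ X)
    (hY : 0 ≤ Y) : 0 ≤ (τ (X * Y)).re := by
  obtain ⟨s, rfl⟩ := CStarAlgebra.nonneg_iff_eq_star_mul_self.mp hX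
  have h1 : τ (star s * s * Y) = τ (s * Y * star s) := by
    rw [mul_assoc, hτ.trace (star s) (s * Y)]
  rw [h1]
  exact hτ.state.re_nonneg_of_nonneg (star_right_conjugate_nonneg hY s)

private theorem s1_trace_le {τ : D →ₗ[ℂ] ℂ} (hτ : IsFTrace τ) {X Y : D} (hX : 0 ≤ X)
    (hY : Y ≤ 1) : (τ (X * Y)).re ≤ (τ X).re := by
  have h := s1_trace_pos hτ hX (sub_nonneg.2 hY)
  rw [mul_sub, mul_one, map_sub, Complex.sub_re] at h
  linarith

/-- the operator inequalities for one element -/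
private theorem s1_facts {c c' : ℝ} {Fm Fp : ℝ → ℝ} (hcm : Continuous Fm)
    (hcp : Continuous Fp) (hm1 : ∀ x, 0 ≤ Fm x ∧ Fm x ≤ 1) (hp1 : ∀ x, 0 ≤ Fp x ∧ Fp x ≤ 1)
    (hm0 : ∀ x, c ≤ x → Fm x = 0) (hp0 : ∀ x, x ≤ c' → Fp x = 0) (hcc : c < c')
    {A : D} (hA : IsSelfAdjoint A) :
    0 ≤ cfc Fm A ∧ cfc Fm A ≤ 1 ∧ 0 ≤ cfc Fp A ∧ cfc Fp A ≤ 1 ∧
    0 ≤ cfc Fm A - cfc Fm A * cfc Fm A ∧
    cfc Fm A - cfc Fm A * cfc Fm A ≤ 1 - cfc Fm A - cfc Fp A ∧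
    0 ≤ cfc Fp A - cfc Fp A * cfc Fp A ∧
    cfc Fp A - cfc Fp A * cfc Fp A ≤ 1 - cfc Fm A - cfc Fp A ∧
    0 ≤ cfc Fm A * cfc Fm A := by
  have hz : ∀ x, Fm x = 0 ∨ Fp x = 0 := by
    intro x
    rcases le_total c x with h | h
    · exact Or.inl (hm0 x h)
    · exact Or.inr (hp0 x (h.trans hcc.le))
  have hone : (1 : D) = cfc (fun _ : ℝ => (1 : ℝ)) A := (cfc_const_one ℝ A).symm
  have hmm : cfc Fm A * cfc Fm A = cfc (fun x => Fm x * Fm x) A :=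
    (cfc_mul Fm Fm A (by fun_prop) (by fun_prop)).symm
  have hpp : cfc Fp A * cfc Fp A = cfc (fun x => Fp x * Fp x) A :=
    (cfc_mul Fp Fp A (by fun_prop) (by fun_prop)).symm
  have hR : 1 - cfc Fm A - cfc Fp A = cfc (fun x => 1 - Fm x - Fp x) A := by
    rw [cfc_sub (fun x => 1 - Fm x) Fp A (by fun_prop) (by fun_prop),
      cfc_sub (fun _ => 1) Fm A (by fun_prop) (by fun_prop), ← hone]
  have hm2 : cfc Fm A - cfc Fm A * cfc Fm A = cfc (fun x => Fm x - Fm x * Fm x) A := by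
    rw [cfc_sub Fm (fun x => Fm x * Fm x) A (by fun_prop) (by fun_prop), hmm]
  have hp2 : cfc Fp A - cfc Fp A * cfc Fp A = cfc (fun x => Fp x - Fp x * Fp x) A := by
    rw [cfc_sub Fp (fun x => Fp x * Fp x) A (by fun_prop) (by fun_prop), hpp]
  refine ⟨cfc_nonneg fun x _ => (hm1 x).1, cfc_le_one Fm A fun x _ => (hm1 x).2,
    cfc_nonneg fun x _ => (hp1 x).1, cfc_le_one Fp A fun x _ => (hp1 x).2, ?_, ?_, ?_, ?_, ?_⟩
  · rw [hm2]
    refine cfc_nonneg fun x _ => ?_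
    have h1 := hm1 x
    nlinarith
  · rw [hm2, hR]
    refine cfc_mono (fun x _ => ?_) (by fun_prop) (by fun_prop)
    have h1 := hm1 x
    have h2 := hp1 x
    rcases hz x with h | h
    · rw [h]; linarith
    · rw [h]; nlinarith
  · rw [hp2]
    refine cfc_nonneg fun x _ => ?_
    have h1 := hp1 x
    nlinarith
  · rw [hp2, hR]
    refine cfc_mono (fun x _ => ?_) (by fun_prop) (by fun_prop)
    have h1 := hm1 x
    have h2 := hp1 x
    rcases hz x with h | h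
    · rw [h]; nlinarith
    · rw [h]; linarith
  · rw [hmm]
    exact cfc_nonneg fun x _ => mul_self_nonneg _

/-- the estimate of `τ (a* a)` -/
private theorem s1_est {τ : D →ₗ[ℂ] ℂ} (hτ : IsFTrace τ) {m p m' p' : D} {κ : ℝ}
    (hm : m ≤ 1) (h1 : 0 ≤ m - m * m) (h2 : m - m * m ≤ 1 - m - p) (h3 : 0 ≤ p')
    (h4 : p' ≤ 1) (h5 : 0 ≤ p' - p' * p') (h6 : p' - p' * p' ≤ 1 - m' - p') (h7 : 0 ≤ m * m)
    (k1 : 1 - κ ≤ (τ (m + p)).re) (k2 : 1 - κ ≤ (τ (m' + p')).re) :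
    (τ (m * p' * (p' * m))).re ≤ (τ ((1 - p) * p')).re ∧
    (τ ((1 - p) * p')).re ≤ (τ (m * p' * (p' * m))).re + 3 * κ := by
  have hone : τ 1 = 1 := hτ.state.1
  have e1 : τ (m * p' * (p' * m)) = τ (m * m * (p' * p')) := by
    rw [← mul_assoc, hτ.trace]
    congr 1
    noncomm_ring
  have e2 : τ ((1 - p) * p') = τ ((1 - p - m * m) * p') + τ (m * m * (p' - p' * p')) +
      τ (m * m * (p' * p')) := by
    rw [← map_add, ← map_add]
    congr 1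
    noncomm_ring
  have e3 : 1 - p - m * m = (1 - m - p) + (m - m * m) := by abel
  have hR : 0 ≤ 1 - m - p := h1.trans h2
  have hX : 0 ≤ 1 - p - m * m := by
    rw [e3]
    exact add_nonneg hR h1
  have hRt : (τ (1 - m - p)).re ≤ κ := by
    rw [map_sub, map_sub, hone, Complex.sub_re, Complex.sub_re, Complex.one_re]
    rw [map_add, Complex.add_re] at k1
    linarith
  have hRt' : (τ (1 - m' - p')).re ≤ κ := by
    rw [map_sub, map_sub, hone, Complex.sub_re, Complex.sub_re, Complex.one_re]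
    rw [map_add, Complex.add_re] at k2
    linarith
  have hmt : (τ (m - m * m)).re ≤ κ := (hτ.state.re_mono h2).trans hRt
  have hpt : (τ (p' - p' * p')).re ≤ κ := (hτ.state.re_mono h6).trans hRt'
  have hXt : (τ (1 - p - m * m)).re ≤ 2 * κ := by
    rw [e3, map_add, Complex.add_re]
    linarith
  have f1 := s1_trace_pos hτ hX h3
  have f2 := s1_trace_le hτ hX h4
  have f3 := s1_trace_pos hτ h7 h5
  have hmm1 : m * m ≤ 1 := (sub_nonneg.1 h1).trans hm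
  have f4 := s1_trace_le hτ h5 hmm1
  rw [hτ.trace] at f4
  rw [e1, e2, Complex.add_re, Complex.add_re]
  constructor <;> linarith

end aux

private theorem s1_arith {d ε ε' κ na nb q₁ q₂ : ℝ} (hd : 0 < d) (hε : 0 < ε) (hκ : 0 < κ)
    (hκ1 : κ ≤ 1) (hε' : ε' = d * ε ^ 4 / 16) (hκ2 : κ * (61 + 8 / d) ≤ ε ^ 4 / 2)
    (na0 : 0 ≤ na) (na1 : na ≤ 1) (nb0 : 0 ≤ nb) (nb1 : nb ≤ 1)
    (h1 : na ≤ q₁) (h2 : q₁ ≤ na + 3 * κ) (h3 : nb ≤ q₂) (h4 : q₂ ≤ nb + 3 * κ)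
    (h5 : |q₁ - q₂| ≤ κ) (h6 : d * na * nb ≤ 2 * κ + ε') : q₁ + q₂ ≤ ε ^ 2 := by
  have e1 : q₁ * q₂ ≤ na * nb + 6 * κ + 9 * κ ^ 2 := by
    have i1 : q₁ * q₂ ≤ (na + 3 * κ) * (nb + 3 * κ) :=
      mul_le_mul h2 h4 (by linarith) (by positivity)
    nlinarith
  have e2 : na * nb ≤ 2 * κ / d + ε ^ 4 / 16 := by
    have i1 : na * nb ≤ (2 * κ + ε') / d := by
      rw [le_div_iff₀ hd]
      linarith
    have i2 : (2 * κ + ε') / d = 2 * κ / d + ε ^ 4 / 16 := by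
      rw [hε', add_div]
      congr 1
      field_simp
    linarith
  have e3 : (q₁ - q₂) ^ 2 ≤ κ ^ 2 := by
    rw [← sq_abs]
    exact pow_le_pow_left₀ (abs_nonneg _) h5 2
  have e4 : κ ^ 2 ≤ κ := by nlinarith
  have e5 : κ * (61 + 8 / d) = 61 * κ + 4 * (2 * κ / d) := by ring
  have e6 : (q₁ + q₂) ^ 2 ≤ (ε ^ 2) ^ 2 := by
    have i1 : (q₁ + q₂) ^ 2 = (q₁ - q₂) ^ 2 + 4 * (q₁ * q₂) := by ring
    have i2 : (ε ^ 2) ^ 2 = ε ^ 4 := by ring
    have i3 : 0 < ε ^ 4 := by positivity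
    rw [i1, i2]
    linarith
  exact le_of_sq_le_sq' e6 (by positivity)
where
  le_of_sq_le_sq' {a b : ℝ} (h : a ^ 2 ≤ b ^ 2) (hb : 0 ≤ b) : a ≤ b := abs_le_of_sq_le_sq' h hb |>.2

theorem pS1 (hS1C : S_S1C) : S_S1 := by
  intro c c' Fm Fp hcc hcm hcp hm1 hp1 hm0 hp0 ε hε
  have hd : 0 < (c' - c) ^ 2 := by
    have := sub_pos.2 hcc
    positivity
  set d := (c' - c) ^ 2 with hddef
  obtain ⟨κ₁, hκ₁, h1⟩ := hS1C c c' Fm Fp hcc hcm hcp hm1 hp1 hm0 hp0 (d * ε ^ 4 / 16)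
    (by positivity)
  have hpos : 0 < ε ^ 4 / 2 / (61 + 8 / d) := by positivity
  refine ⟨min κ₁ (min 1 (ε ^ 4 / 2 / (61 + 8 / d))), lt_min hκ₁ (lt_min zero_lt_one hpos), ?_⟩
  set κ := min κ₁ (min 1 (ε ^ 4 / 2 / (61 + 8 / d))) with hκdef
  have hκ0 : 0 < κ := lt_min hκ₁ (lt_min zero_lt_one hpos)
  have hκ1 : κ ≤ 1 := (min_le_right _ _).trans (min_le_left _ _)
  have hκ2 : κ * (61 + 8 / d) ≤ ε ^ 4 / 2 := by
    have h2 : κ ≤ ε ^ 4 / 2 / (61 + 8 / d) := (min_le_right _ _).trans (min_le_right _ _)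
    rwa [le_div_iff₀ (by positivity)] at h2
  have hκκ₁ : κ ≤ κ₁ := min_le_left _ _
  clear_value κ
  intro D _ _ _ τ hτ P g hPc _hg hmix A hA B hB hA0 hA1 hB0 hB1 hAB hab kA kB kAB
  have hst := hτ.state
  have hAsa : IsSelfAdjoint A := hA0.isSelfAdjoint
  have hBsa : IsSelfAdjoint B := hB0.isSelfAdjoint
  have _ : IsClosed (P : Set D) := hPc
  have hmP : cfc Fm A ∈ P := cfc_mem Fm hA
  have hpP : cfc Fp A ∈ P := cfc_mem Fp hA
  have hmP' : cfc Fm B ∈ P := cfc_mem Fm hB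
  have hpP' : cfc Fp B ∈ P := cfc_mem Fp hB
  have hn : ∀ (F : ℝ → ℝ) (X : D), (∀ x, 0 ≤ F x ∧ F x ≤ 1) → ‖cfc F X‖ ≤ 1 := by
    intro F X hF
    refine norm_cfc_le zero_le_one (fun x _ => ?_)
    rw [Real.norm_of_nonneg (hF x).1]
    exact (hF x).2
  have nm := hn Fm A hm1
  have np := hn Fp A hp1
  have nm' := hn Fm B hm1
  have np' := hn Fp B hp1
  have h2 := h1 D τ hτ P g hPc hmix A hA B hB hA0 hA1 hB0 hB1 (hAB.trans hκκ₁)
    (cfc Fp B * cfc Fm A) (cfc Fm B * cfc Fp A) _ _ rfl rfl rfl rfl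
  have h3 := hab (cfc Fp B * cfc Fm A) (mul_mem hpP' hmP) (cfc Fm B * cfc Fp A)
    (mul_mem hmP' hpP) ((norm_mul_le _ _).trans (mul_le_one₀ np' (norm_nonneg _) nm))
    ((norm_mul_le _ _).trans (mul_le_one₀ nm' (norm_nonneg _) np)) _ rfl
  obtain ⟨a1, a2, a3, a4, a5, a6, a7, a8, a9⟩ :=
    s1_facts hcm hcp hm1 hp1 hm0 hp0 hcc hAsa
  obtain ⟨b1, b2, b3, b4, b5, b6, b7, b8, b9⟩ :=
    s1_facts hcm hcp hm1 hp1 hm0 hp0 hcc hBsa
  have sm : star (cfc Fm A) = cfc Fm A := (cfc_predicate Fm A : IsSelfAdjoint _)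
  have sp : star (cfc Fp A) = cfc Fp A := (cfc_predicate Fp A : IsSelfAdjoint _)
  have sm' : star (cfc Fm B) = cfc Fm B := (cfc_predicate Fm B : IsSelfAdjoint _)
  have sp' : star (cfc Fp B) = cfc Fp B := (cfc_predicate Fp B : IsSelfAdjoint _)
  have hna0 := hst.re_nonneg (cfc Fp B * cfc Fm A)
  have hnb0 := hst.re_nonneg (cfc Fp A * cfc Fm B)
  rw [star_mul, sm, sp'] at h2 hna0
  rw [star_mul, sm', sp] at hnb0
  rw [star_mul (cfc Fm B), sm', sp] at h2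
  obtain ⟨e1, e2⟩ := s1_est hτ a2 a5 a6 b3 b4 b7 b8 a9 kA kB
  obtain ⟨e3, e4⟩ := s1_est hτ b2 b5 b6 a3 a4 a7 a8 b9 kB kA
  have hna1 : (τ (cfc Fm A * cfc Fp B * (cfc Fp B * cfc Fm A))).re ≤ 1 := by
    have h4 : ‖cfc Fm A * cfc Fp B * (cfc Fp B * cfc Fm A)‖ ≤ 1 :=
      (norm_mul_le _ _).trans (mul_le_one₀ ((norm_mul_le _ _).trans
        (mul_le_one₀ nm (norm_nonneg _) np')) (norm_nonneg _) ((norm_mul_le _ _).trans
        (mul_le_one₀ np' (norm_nonneg _) nm)))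
    exact (Complex.re_le_norm _).trans ((hst.norm_le _).trans h4)
  have hnb1 : (τ (cfc Fm B * cfc Fp A * (cfc Fp A * cfc Fm B))).re ≤ 1 := by
    have h4 : ‖cfc Fm B * cfc Fp A * (cfc Fp A * cfc Fm B)‖ ≤ 1 :=
      (norm_mul_le _ _).trans (mul_le_one₀ ((norm_mul_le _ _).trans
        (mul_le_one₀ nm' (norm_nonneg _) np)) (norm_nonneg _) ((norm_mul_le _ _).trans
        (mul_le_one₀ np (norm_nonneg _) nm')))
    exact (Complex.re_le_norm _).trans ((hst.norm_le _).trans h4)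
  have q1 : (τ ((1 - cfc Fp A) * cfc Fp B)).re =
      (τ (cfc Fp B)).re - (τ (cfc Fp A * cfc Fp B)).re := by
    rw [sub_mul, one_mul, map_sub, Complex.sub_re]
  have q2 : (τ ((1 - cfc Fp B) * cfc Fp A)).re =
      (τ (cfc Fp A)).re - (τ (cfc Fp A * cfc Fp B)).re := by
    rw [sub_mul, one_mul, map_sub, Complex.sub_re, hτ.trace (cfc Fp B)]
  have hdiff : |(τ ((1 - cfc Fp A) * cfc Fp B)).re - (τ ((1 - cfc Fp B) * cfc Fp A)).re| ≤ κ := by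
    rw [q1, q2]
    have h5 : (τ (cfc Fp B)).re - (τ (cfc Fp A * cfc Fp B)).re -
        ((τ (cfc Fp A)).re - (τ (cfc Fp A * cfc Fp B)).re) =
        -((τ (cfc Fp A)).re - (τ (cfc Fp B)).re) := by ring
    rw [h5, abs_neg]
    exact kAB
  have hsum := s1_arith hd hε hκ0 hκ1 rfl hκ2 hna0 hna1 hnb0 hnb1 e1 e2 e3 e4 hdiff
    (by
      refine h2.trans ?_
      have h6 := h3
      linarith)
  -- the 2-norm
  have hn2 : n2 τ (cfc Fp A - cfc Fp B) ^ 2 ≤ ε ^ 2 := by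
    rw [hst.n2_sq, star_sub, sp, sp']
    have h5 : (cfc Fp A - cfc Fp B) * (cfc Fp A - cfc Fp B) =
        cfc Fp A * cfc Fp A + cfc Fp B * cfc Fp B - cfc Fp A * cfc Fp B -
          cfc Fp B * cfc Fp A := by noncomm_ring
    rw [h5, map_sub, map_sub, map_add, Complex.sub_re, Complex.sub_re, Complex.add_re,
      hτ.trace (cfc Fp B) (cfc Fp A)]
    have h6 := hst.re_mono (sub_nonneg.1 a7)
    have h7 := hst.re_mono (sub_nonneg.1 b7)
    linarith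
  exact abs_le_of_sq_le_sq' hn2 hε.le |>.2

end Pool.Agent.FT
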