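import Pool.Agent.Lib.FT.SpecD

/-!
# C44, block D, module S1C: the threshold inequality
-/

set_option autoImplicit false

open MeasureTheory

noncomputable section

namespace Pool.Agent.FT

section aux

variable {D : Type} [CStarAlgebra D]

private theorem s1c_re_smul (τ : D →ₗ[ℂ] ℂ) (t : ℝ) (x : D) : (τ (t • x)).re = t * (τ x).re := by
  rw [← Complex.coe_smul, map_smul, smul_eq_mul, Complex.re_ofReal_mul]

private theorem s1c_bd {x y : D} {a b : ℝ} (hx : ‖x‖ ≤ a)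
    (hy : ‖y‖ ≤ b) (ha : 0 ≤ a) : ‖x * y‖ ≤ a * b :=
  (norm_mul_le x y).trans (mul_le_mul hx hy (norm_nonneg _) ha)

private theorem s1c_n2neg {τ : D →ₗ[ℂ] ℂ} (hτ : IsFTrace τ) (x y : D) :
    n2 τ (x * y - y * x) = n2 τ (y * x - x * y) := by
  rw [← hτ.state.n2_neg, neg_sub]

private theorem s1c_im {τ : D →ₗ[ℂ] ℂ} (hτ : IsFTrace τ) {x : D} (hx : star x = x) :
    (τ x).im = 0 := by
  have h := hτ.state.map_star x
  rw [hx] at h
  have h2 := congrArg Complex.im h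
  rw [Complex.conj_im] at h2
  linarith

variable [PartialOrder D] [StarOrderedRing D]

private theorem s1c_trace_pos {τ : D →ₗ[ℂ] ℂ} (hτ : IsFTrace τ) {X Y : D} (hX : 0 ≤ X)
    (hY : 0 ≤ Y) : 0 ≤ (τ (X * Y)).re := by
  obtain ⟨s, rfl⟩ := CStarAlgebra.nonneg_iff_eq_star_mul_self.mp hX
  have h1 : τ (star s * s * Y) = τ (s * Y * star s) := by
    rw [mul_assoc, hτ.trace (star s) (s * Y)]
  rw [h1]
  exact hτ.state.re_nonneg_of_nonneg (star_right_conjugate_nonneg hY s)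

private theorem s1c_spec {A : D} (h0 : 0 ≤ A) (h1 : A ≤ 1) : ∀ x ∈ spectrum ℝ A, 0 ≤ x ∧ x ≤ 1 := by
  intro x hx
  refine ⟨spectrum_nonneg_of_nonneg h0 hx, ?_⟩
  have h2 : A ≤ algebraMap ℝ D 1 := by rw [map_one]; exact h1
  exact (le_algebraMap_iff_spectrum_le (a := A) (r := 1) h0.isSelfAdjoint).mp h2 x hx

/-- triple products -/
private theorem s1c_mul3 (A : D) (f g h : ℝ → ℝ) (hf : Continuous f) (hg : Continuous g)
    (hh : Continuous h) :
    cfc f A * cfc g A * cfc h A = cfc (fun x => f x * g x * h x) A := by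
  rw [cfc_mul (fun x => f x * g x) h A (by fun_prop) (by fun_prop),
    cfc_mul f g A (by fun_prop) (by fun_prop)]

private theorem s1c_lin {A : D} (hA : IsSelfAdjoint A) (c : ℝ) :
    cfc (fun x : ℝ => x - c) A = A - algebraMap ℝ D c := by
  rw [cfc_sub (fun x : ℝ => x) (fun _ => c) A (by fun_prop) (by fun_prop), cfc_id' ℝ A,
    cfc_const c A]

private theorem s1c_comm (A : D) (f g : ℝ → ℝ) : cfc f A * cfc g A = cfc g A * cfc f A :=
  cfc_commute_cfc f g A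

private theorem s1c_norm {A : D} (h0 : 0 ≤ A) (h1 : A ≤ 1) (f : ℝ → ℝ) (M : ℝ) (hM : 0 ≤ M)
    (hf : ∀ x, 0 ≤ x → x ≤ 1 → |f x| ≤ M) : ‖cfc f A‖ ≤ M := by
  refine norm_cfc_le hM (fun x hx => ?_)
  obtain ⟨h2, h3⟩ := s1c_spec h0 h1 x hx
  exact hf x h2 h3

/-- the estimates for one order of `A, B` -/
private theorem s1c_main {c c' : ℝ} {Fm Fp : ℝ → ℝ} (hcm : Continuous Fm)
    (hcp : Continuous Fp) (hm1 : ∀ x, 0 ≤ Fm x ∧ Fm x ≤ 1) (hp1 : ∀ x, 0 ≤ Fp x ∧ Fp x ≤ 1)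
    (hm0 : ∀ x, c ≤ x → Fm x = 0) (hp0 : ∀ x, x ≤ c' → Fp x = 0) (hcc : c < c')
    {τ : D →ₗ[ℂ] ℂ} (hτ : IsFTrace τ) {A B : D} (hA0 : 0 ≤ A) (hA1 : A ≤ 1) (hB0 : 0 ≤ B)
    (hB1 : B ≤ 1) {δ : ℝ}
    (h1 : n2 τ (cfc Fp B * cfc Fm A - cfc Fm A * cfc Fp B) ≤ δ)
    (h2 : n2 τ ((B - algebraMap ℝ D c) * cfc Fp A - cfc Fp A * (B - algebraMap ℝ D c)) ≤ δ) :
    (c' - c) * (τ (cfc Fm A * cfc Fp B * (cfc Fp B * cfc Fm A))).re ≤
      (τ (cfc Fm A * cfc Fp B * (B - algebraMap ℝ D c) * (cfc Fp B * cfc Fm A))).re ∧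
    (τ (cfc Fm A * cfc Fp B * (A - algebraMap ℝ D c) * (cfc Fp B * cfc Fm A))).re ≤
      2 * (1 + |c|) * δ ∧
    -(1 + |c|) ≤ (τ (cfc Fm A * cfc Fp B * (A - algebraMap ℝ D c) * (cfc Fp B * cfc Fm A))).re ∧
    (τ (cfc Fm B * cfc Fp A * (A - algebraMap ℝ D c) * (B - algebraMap ℝ D c) *
      (cfc Fp A * cfc Fm B))).re ≤ (1 + |c|) * δ ∧
    0 ≤ (τ (cfc Fm A * cfc Fp B * (cfc Fp B * cfc Fm A))).re ∧
    (τ (cfc Fm A * cfc Fp B * (cfc Fp B * cfc Fm A))).re ≤ 1 := by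
  have hAsa : IsSelfAdjoint A := hA0.isSelfAdjoint
  have hBsa : IsSelfAdjoint B := hB0.isSelfAdjoint
  have hst := hτ.state
  have hM0 : 0 ≤ 1 + |c| := by positivity
  have hlA := s1c_lin hAsa c
  have hlB := s1c_lin hBsa c
  have nm : ‖cfc Fm A‖ ≤ 1 := s1c_norm hA0 hA1 Fm 1 zero_le_one (fun x _ _ => by
    rw [abs_of_nonneg (hm1 x).1]; exact (hm1 x).2)
  have np : ‖cfc Fp A‖ ≤ 1 := s1c_norm hA0 hA1 Fp 1 zero_le_one (fun x _ _ => by
    rw [abs_of_nonneg (hp1 x).1]; exact (hp1 x).2)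
  have nm' : ‖cfc Fm B‖ ≤ 1 := s1c_norm hB0 hB1 Fm 1 zero_le_one (fun x _ _ => by
    rw [abs_of_nonneg (hm1 x).1]; exact (hm1 x).2)
  have np' : ‖cfc Fp B‖ ≤ 1 := s1c_norm hB0 hB1 Fp 1 zero_le_one (fun x _ _ => by
    rw [abs_of_nonneg (hp1 x).1]; exact (hp1 x).2)
  have nAc : ‖A - algebraMap ℝ D c‖ ≤ 1 + |c| := by
    rw [← hlA]
    refine s1c_norm hA0 hA1 _ _ hM0 (fun x hx0 hx1 => ?_)
    refine (abs_sub _ _).trans (add_le_add ?_ le_rfl)
    rw [abs_of_nonneg hx0]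
    exact hx1
  have sm : star (cfc Fm A) = cfc Fm A := (cfc_predicate Fm A : IsSelfAdjoint _)
  have sp : star (cfc Fp A) = cfc Fp A := (cfc_predicate Fp A : IsSelfAdjoint _)
  have sm' : star (cfc Fm B) = cfc Fm B := (cfc_predicate Fm B : IsSelfAdjoint _)
  have sp' : star (cfc Fp B) = cfc Fp B := (cfc_predicate Fp B : IsSelfAdjoint _)
  refine ⟨?_, ?_, ?_, ?_, ?_, ?_⟩
  · -- the first inequality
    have hX : 0 ≤ cfc Fp B * (B - algebraMap ℝ D c') * cfc Fp B := by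
      rw [← s1c_lin hBsa c', s1c_mul3 B _ _ _ hcp (by fun_prop) hcp]
      refine cfc_nonneg (fun x _ => ?_)
      rcases le_total x c' with hx | hx
      · rw [hp0 x hx]
        simp
      · exact mul_nonneg (mul_nonneg (hp1 x).1 (sub_nonneg.2 hx)) (hp1 x).1
    have h3 := hst.re_nonneg_of_nonneg (star_left_conjugate_nonneg hX (cfc Fm A))
    rw [sm] at h3
    have h4 : cfc Fm A * (cfc Fp B * (B - algebraMap ℝ D c') * cfc Fp B) * cfc Fm A =
        cfc Fm A * cfc Fp B * (B - algebraMap ℝ D c) * (cfc Fp B * cfc Fm A) -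
          (c' - c) • (cfc Fm A * cfc Fp B * (cfc Fp B * cfc Fm A)) := by
      have h5 : B - algebraMap ℝ D c' = (B - algebraMap ℝ D c) - (c' - c) • (1 : D) := by
        rw [Algebra.algebraMap_eq_smul_one, Algebra.algebraMap_eq_smul_one]
        module
      rw [h5]
      generalize B - algebraMap ℝ D c = Bc
      simp only [mul_sub, sub_mul, mul_smul_comm, smul_mul_assoc, mul_one, mul_assoc]
    rw [h4, map_sub, Complex.sub_re, s1c_re_smul] at h3
    linarith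
  · -- the second inequality
    set m := cfc Fm A with hm
    set p' := cfc Fp B with hp'
    set Ac := A - algebraMap ℝ D c with hAc
    set e := p' * m - m * p' with he
    have h3 : m * p' * Ac * (p' * m) = p' * (m * Ac * m) * p' - e * (Ac * m * p') +
        m * p' * Ac * e := by
      rw [he]
      noncomm_ring
    have h4 : 0 ≤ -(m * Ac * m) := by
      change 0 ≤ -(cfc Fm A * (A - algebraMap ℝ D c) * cfc Fm A)
      rw [← s1c_lin hAsa c, s1c_mul3 A _ _ _ hcm (by fun_prop) hcm, ← cfc_neg]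
      refine cfc_nonneg (fun x _ => ?_)
      rcases le_total c x with hx | hx
      · rw [hm0 x hx]
        simp
      · have h5 := mul_nonneg (mul_nonneg (hm1 x).1 (sub_nonneg.2 hx)) (hm1 x).1
        linarith
    have h5 := hst.re_nonneg_of_nonneg (star_left_conjugate_nonneg h4 p')
    rw [sp', mul_neg, neg_mul, map_neg, Complex.neg_re] at h5
    have h6 : ‖Ac * m * p'‖ ≤ (1 + |c|) * 1 * 1 :=
      s1c_bd (s1c_bd nAc nm hM0) np' (by positivity)
    have h7 : ‖m * p' * Ac‖ ≤ 1 * 1 * (1 + |c|) :=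
      s1c_bd (s1c_bd nm np' zero_le_one) nAc (by positivity)
    have hδ : 0 ≤ δ := (n2_nonneg _ _).trans h1
    have h8 : |(τ (e * (Ac * m * p'))).re| ≤ δ * (1 + |c|) := by
      refine (Complex.abs_re_le_norm _).trans ((hst.norm_le_n2 _).trans
        ((hτ.n2_mul_le' _ _).trans ?_))
      exact mul_le_mul h1 (by linarith) (norm_nonneg _) hδ
    have h9 : |(τ (m * p' * Ac * e)).re| ≤ (1 + |c|) * δ := by
      refine (Complex.abs_re_le_norm _).trans ((hst.norm_le_n2 _).trans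
        ((hst.n2_mul_le _ _).trans ?_))
      exact mul_le_mul (by linarith) h1 (n2_nonneg _ _) hM0
    rw [h3, map_add, map_sub, Complex.add_re, Complex.sub_re]
    have h10 := (abs_le.1 h8).1
    have h11 := (abs_le.1 h9).2
    linarith
  · have h3 : ‖cfc Fm A * cfc Fp B * (A - algebraMap ℝ D c) * (cfc Fp B * cfc Fm A)‖ ≤
        1 * 1 * (1 + |c|) * (1 * 1) :=
      s1c_bd (s1c_bd (s1c_bd nm np' zero_le_one) nAc (by positivity))
        (s1c_bd np' nm zero_le_one) (by positivity)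
    have h4 := (abs_le.1 ((Complex.abs_re_le_norm _).trans ((hst.norm_le _).trans h3))).1
    linarith
  · -- the third inequality
    set p := cfc Fp A with hp
    set m' := cfc Fm B with hm'
    set Ac := A - algebraMap ℝ D c with hAc
    set Bc := B - algebraMap ℝ D c with hBc
    set f := Bc * p - p * Bc with hf
    have h3 : τ (m' * p * Ac * Bc * (p * m')) = τ (p * Ac * p * (m' * Bc * m')) +
        τ (p * Ac * (f * (m' * m'))) := by
      have h4 : m' * p * Ac * Bc * (p * m') = m' * (p * Ac * Bc * p * m') := by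
        simp only [mul_assoc]
      rw [h4, hτ.trace, ← map_add]
      have h5 : m' * Bc * m' = Bc * m' * m' := by
        have h6 : m' * Bc = Bc * m' := by
          change cfc Fm B * (B - algebraMap ℝ D c) = (B - algebraMap ℝ D c) * cfc Fm B
          rw [← s1c_lin hBsa c]
          exact s1c_comm B _ _
        rw [h6]
      rw [h5, hf]
      congr 1
      noncomm_ring
    have hX : 0 ≤ p * Ac * p := by
      change 0 ≤ cfc Fp A * (A - algebraMap ℝ D c) * cfc Fp A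
      rw [← s1c_lin hAsa c, s1c_mul3 A _ _ _ hcp (by fun_prop) hcp]
      refine cfc_nonneg (fun x _ => ?_)
      rcases le_total x c' with hx | hx
      · rw [hp0 x hx]
        simp
      · exact mul_nonneg (mul_nonneg (hp1 x).1 (sub_nonneg.2 (hcc.le.trans hx))) (hp1 x).1
    have hY : 0 ≤ -(m' * Bc * m') := by
      change 0 ≤ -(cfc Fm B * (B - algebraMap ℝ D c) * cfc Fm B)
      rw [← s1c_lin hBsa c, s1c_mul3 B _ _ _ hcm (by fun_prop) hcm, ← cfc_neg]
      refine cfc_nonneg (fun x _ => ?_)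
      rcases le_total c x with hx | hx
      · rw [hm0 x hx]
        simp
      · have h5 := mul_nonneg (mul_nonneg (hm1 x).1 (sub_nonneg.2 hx)) (hm1 x).1
        linarith
    have h6 := s1c_trace_pos hτ hX hY
    rw [mul_neg, map_neg, Complex.neg_re] at h6
    have h7 : ‖p * Ac‖ ≤ 1 * (1 + |c|) := s1c_bd np nAc zero_le_one
    have h8 : ‖m' * m'‖ ≤ 1 * 1 := s1c_bd nm' nm' zero_le_one
    have hδ : 0 ≤ δ := (n2_nonneg _ _).trans h2
    have h9 : n2 τ (f * (m' * m')) ≤ δ * 1 :=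
      (hτ.n2_mul_le' _ _).trans (mul_le_mul h2 (by linarith) (norm_nonneg _) hδ)
    have h10 : |(τ (p * Ac * (f * (m' * m')))).re| ≤ (1 + |c|) * δ := by
      refine (Complex.abs_re_le_norm _).trans ((hst.norm_le_n2 _).trans
        ((hst.n2_mul_le _ _).trans ?_))
      exact mul_le_mul (by linarith) (by linarith) (n2_nonneg _ _) hM0
    rw [h3, Complex.add_re]
    have h11 := (abs_le.1 h10).2
    linarith
  · have h3 := hst.re_nonneg (cfc Fp B * cfc Fm A)
    rwa [star_mul, sm, sp'] at h3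
  · have h3 : ‖cfc Fm A * cfc Fp B * (cfc Fp B * cfc Fm A)‖ ≤ 1 * 1 * (1 * 1) :=
      s1c_bd (s1c_bd nm np' zero_le_one) (s1c_bd np' nm zero_le_one) (by positivity)
    have h4 := (abs_le.1 ((Complex.abs_re_le_norm _).trans ((hst.norm_le _).trans h3))).2
    linarith

end aux

private theorem s1c_arith {M δ dc na nb α₁ β₁ α₂ β₂ γ ζ R : ℝ} (hM : 1 ≤ M) (hδ : 0 ≤ δ)
    (hdc : 0 < dc) (na0 : 0 ≤ na) (na1 : na ≤ 1) (nb0 : 0 ≤ nb) (nb1 : nb ≤ 1)
    (h1 : dc * na ≤ α₁) (h2 : dc * nb ≤ β₁) (h3 : α₂ ≤ 2 * M * δ) (h4 : β₂ ≤ 2 * M * δ)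
    (h5 : -M ≤ α₂) (h6 : -M ≤ β₂) (h7 : γ ≤ M * δ) (h8 : ζ ≤ M * δ)
    (h : -4 * R = 2 * (α₁ * β₁) + 2 * (α₂ * β₂) - na * (γ + γ) - nb * (ζ + ζ)) :
    dc ^ 2 * na * nb ≤ -2 * R + 4 * M ^ 2 * δ := by
  have e1 : dc ^ 2 * na * nb ≤ α₁ * β₁ := by
    have : (dc * na) * (dc * nb) ≤ α₁ * β₁ :=
      mul_le_mul h1 h2 (by positivity) ((by positivity : 0 ≤ dc * na).trans h1)
    linarith
  have hMδ : 0 ≤ M * δ := by positivity
  have e2 : -(2 * M ^ 2 * δ) ≤ α₂ * β₂ := by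
    rcases le_total α₂ 0 with ha | ha <;> rcases le_total β₂ 0 with hb | hb
    · have : 0 ≤ α₂ * β₂ := mul_nonneg_of_nonpos_of_nonpos ha hb
      have : 0 ≤ 2 * M ^ 2 * δ := by positivity
      linarith
    · have i1 : -M * β₂ ≤ α₂ * β₂ := mul_le_mul_of_nonneg_right h5 hb
      have i2 : M * β₂ ≤ M * (2 * M * δ) := mul_le_mul_of_nonneg_left h4 (by linarith)
      nlinarith
    · have i1 : α₂ * -M ≤ α₂ * β₂ := mul_le_mul_of_nonneg_left h6 ha
      have i2 : M * α₂ ≤ M * (2 * M * δ) := mul_le_mul_of_nonneg_left h3 (by linarith)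
      nlinarith
    · have : 0 ≤ α₂ * β₂ := mul_nonneg ha hb
      have : 0 ≤ 2 * M ^ 2 * δ := by positivity
      linarith
  have e3 : na * (γ + γ) ≤ 2 * (M * δ) := by
    have i1 : na * (γ + γ) ≤ na * (2 * (M * δ)) := mul_le_mul_of_nonneg_left (by linarith) na0
    have i2 : na * (2 * (M * δ)) ≤ 1 * (2 * (M * δ)) :=
      mul_le_mul_of_nonneg_right na1 (by positivity)
    linarith
  have e4 : nb * (ζ + ζ) ≤ 2 * (M * δ) := by
    have i1 : nb * (ζ + ζ) ≤ nb * (2 * (M * δ)) := mul_le_mul_of_nonneg_left (by linarith) nb0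
    have i2 : nb * (2 * (M * δ)) ≤ 1 * (2 * (M * δ)) :=
      mul_le_mul_of_nonneg_right nb1 (by positivity)
    linarith
  have e5 : M * δ ≤ M ^ 2 * δ := mul_le_mul_of_nonneg_right (by nlinarith) hδ
  nlinarith

theorem pS1C (hCOM : S_COM) (hFM : S_FM) : S_S1C := by
  intro c c' Fm Fp hcc hcm hcp hm1 hp1 hm0 hp0 ε hε
  have hM1 : 1 ≤ 1 + |c| := by linarith [abs_nonneg c]
  have hδ : 0 < ε / (4 * (1 + |c|) ^ 2) := by positivity
  set δ := ε / (4 * (1 + |c|) ^ 2) with hδdef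
  obtain ⟨κ₁, hκ₁, h1⟩ := hCOM Fm Fp hcm hcp δ hδ
  obtain ⟨κ₂, hκ₂, h2⟩ := hCOM Fp (fun x => x) hcp continuous_id δ hδ
  refine ⟨min κ₁ κ₂, lt_min hκ₁ hκ₂, ?_⟩
  intro D _ _ _ τ hτ P g hPc hmix A hA B hB hA0 hA1 hB0 hB1 hAB a b y K ha hb hy hK
  have hst := hτ.state
  have hAsa : IsSelfAdjoint A := hA0.isSelfAdjoint
  have hBsa : IsSelfAdjoint B := hB0.isSelfAdjoint
  have hBA : n2 τ (B * A - A * B) ≤ min κ₁ κ₂ := by rw [s1c_n2neg hτ]; exact hAB
  -- commutators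
  have c1 : n2 τ (cfc Fp B * cfc Fm A - cfc Fm A * cfc Fp B) ≤ δ := by
    rw [s1c_n2neg hτ]
    exact h1 D τ hτ A B hA0 hA1 hB0 hB1 (hAB.trans (min_le_left _ _))
  have c2 : n2 τ (cfc Fp A * cfc Fm B - cfc Fm B * cfc Fp A) ≤ δ := by
    rw [s1c_n2neg hτ]
    exact h1 D τ hτ B A hB0 hB1 hA0 hA1 (hBA.trans (min_le_left _ _))
  have hcomm : ∀ X Y : D, (X - algebraMap ℝ D c) * Y - Y * (X - algebraMap ℝ D c) =
      X * Y - Y * X := by
    intro X Y
    rw [sub_mul, mul_sub, Algebra.commutes]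
    abel
  have c3 : n2 τ ((B - algebraMap ℝ D c) * cfc Fp A - cfc Fp A * (B - algebraMap ℝ D c)) ≤ δ := by
    rw [hcomm, s1c_n2neg hτ]
    have h3 := h2 D τ hτ A B hA0 hA1 hB0 hB1 (hAB.trans (min_le_right _ _))
    rwa [cfc_id' ℝ B] at h3
  have c4 : n2 τ ((A - algebraMap ℝ D c) * cfc Fp B - cfc Fp B * (A - algebraMap ℝ D c)) ≤ δ := by
    rw [hcomm, s1c_n2neg hτ]
    have h3 := h2 D τ hτ B A hB0 hB1 hA0 hA1 (hBA.trans (min_le_right _ _))
    rwa [cfc_id' ℝ A] at h3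
  obtain ⟨a1, a2, a3, a4, a5, a6⟩ := s1c_main hcm hcp hm1 hp1 hm0 hp0 hcc hτ hA0 hA1 hB0 hB1 c1 c3
  obtain ⟨b1, b2, b3, b4, b5, b6⟩ := s1c_main hcm hcp hm1 hp1 hm0 hp0 hcc hτ hB0 hB1 hA0 hA1 c2 c4
  have sm : star (cfc Fm A) = cfc Fm A := (cfc_predicate Fm A : IsSelfAdjoint _)
  have sp : star (cfc Fp A) = cfc Fp A := (cfc_predicate Fp A : IsSelfAdjoint _)
  have sm' : star (cfc Fm B) = cfc Fm B := (cfc_predicate Fm B : IsSelfAdjoint _)
  have sp' : star (cfc Fp B) = cfc Fp B := (cfc_predicate Fp B : IsSelfAdjoint _)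
  have hsa : star a = cfc Fm A * cfc Fp B := by rw [ha, star_mul, sm, sp']
  have hsb : star b = cfc Fp A * cfc Fm B := by rw [hb, star_mul, sm', sp]
  have _ : IsClosed (P : Set D) := hPc
  have haP : a ∈ P := by
    rw [ha]
    exact mul_mem (cfc_mem Fp hB) (cfc_mem Fm hA)
  have hbP : b ∈ P := by
    rw [hb]
    exact mul_mem (cfc_mem Fm hB) (cfc_mem Fp hA)
  have hcP : algebraMap ℝ D c ∈ P := by
    rw [Algebra.algebraMap_eq_smul_one, ← Complex.coe_smul]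
    exact P.smul_mem (one_mem P) _
  have hcs : star (algebraMap ℝ D c) = algebraMap ℝ D c :=
    (IsSelfAdjoint.algebraMap D (IsSelfAdjoint.all c))
  set Ac := A - algebraMap ℝ D c with hAc
  set Bc := B - algebraMap ℝ D c with hBc
  have hAcs : star Ac = Ac := by rw [hAc, star_sub, hcs, hAsa.star_eq]
  have hBcs : star Bc = Bc := by rw [hBc, star_sub, hcs, hBsa.star_eq]
  have hfm := hFM D τ hτ P g hmix Ac (sub_mem hA hcP) Bc (sub_mem hB hcP) a haP b hbP hAcs hBcs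
    y K hy hK
  have k1 : K * Ac - Ac * K = K * A - A * K := by
    have h3 := hcomm A K
    rw [← neg_inj, neg_sub, neg_sub]
    exact h3
  have k2 : K * Bc - Bc * K = K * B - B * K := by
    have h3 := hcomm B K
    rw [← neg_inj, neg_sub, neg_sub]
    exact h3
  rw [k1, k2] at hfm
  clear_value Ac Bc
  -- imaginary parts
  have i1 : (τ (star a * Bc * a)).im = 0 := s1c_im hτ (by
    rw [star_mul, star_mul, star_star, hBcs, mul_assoc])
  have i2 : (τ (b * Ac * star b)).im = 0 := s1c_im hτ (by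
    rw [star_mul, star_mul, star_star, hAcs, mul_assoc])
  have i3 : (τ (star a * Ac * a)).im = 0 := s1c_im hτ (by
    rw [star_mul, star_mul, star_star, hAcs, mul_assoc])
  have i4 : (τ (b * Bc * star b)).im = 0 := s1c_im hτ (by
    rw [star_mul, star_mul, star_star, hBcs, mul_assoc])
  have i5 : (τ (star a * a)).im = 0 := s1c_im hτ (by rw [star_mul, star_star])
  have i6 : (τ (b * star b)).im = 0 := s1c_im hτ (by rw [star_mul, star_star])
  have r1 : (τ (b * Bc * Ac * star b)).re = (τ (b * Ac * Bc * star b)).re := by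
    have h3 : b * Bc * Ac * star b = star (b * Ac * Bc * star b) := by
      rw [star_mul, star_mul, star_mul, star_star, hAcs, hBcs]
      simp only [mul_assoc]
    rw [h3, hst.map_star, Complex.conj_re]
  have r2 : (τ (star a * Ac * Bc * a)).re = (τ (star a * Bc * Ac * a)).re := by
    have h3 : star a * Ac * Bc * a = star (star a * Bc * Ac * a) := by
      rw [star_mul, star_mul, star_mul, star_star, hAcs, hBcs]
      simp only [mul_assoc]
    rw [h3, hst.map_star, Complex.conj_re]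
  have hre := congrArg Complex.re hfm
  simp only [Complex.add_re, Complex.sub_re, Complex.mul_re, Complex.neg_re, Complex.re_ofNat,
    Complex.im_ofNat, Complex.neg_im, i1, i2, i3, i4, i5, i6, mul_zero, zero_mul, sub_zero,
    neg_zero, Complex.mul_im, Complex.add_im, r1, r2, add_zero] at hre
  have q1 : (τ (b * star b)).re = (τ (cfc Fm B * cfc Fp A * (cfc Fp A * cfc Fm B))).re := by
    rw [hsb, hb]
  have q2 : (τ (star a * a)).re = (τ (cfc Fm A * cfc Fp B * (cfc Fp B * cfc Fm A))).re := by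
    rw [hsa, ha]
  have q3 : (τ (star a * Bc * a)).re =
      (τ (cfc Fm A * cfc Fp B * Bc * (cfc Fp B * cfc Fm A))).re := by
    rw [hsa, ha]
  have q4 : (τ (star a * Ac * a)).re =
      (τ (cfc Fm A * cfc Fp B * Ac * (cfc Fp B * cfc Fm A))).re := by
    rw [hsa, ha]
  have q5 : (τ (b * Ac * star b)).re =
      (τ (cfc Fm B * cfc Fp A * Ac * (cfc Fp A * cfc Fm B))).re := by
    rw [hsb, hb]
  have q6 : (τ (b * Bc * star b)).re =
      (τ (cfc Fm B * cfc Fp A * Bc * (cfc Fp A * cfc Fm B))).re := by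
    rw [hsb, hb]
  have q7 : (τ (b * Ac * Bc * star b)).re =
      (τ (cfc Fm B * cfc Fp A * Ac * Bc * (cfc Fp A * cfc Fm B))).re := by
    rw [hsb, hb]
  have q8 : (τ (star a * Bc * Ac * a)).re =
      (τ (cfc Fm A * cfc Fp B * Bc * Ac * (cfc Fp B * cfc Fm A))).re := by
    rw [hsa, ha]
  rw [← q2, ← q3] at a1
  rw [← q4] at a2 a3
  rw [← q7] at a4
  rw [← q2] at a5 a6
  rw [← q1, ← q5] at b1
  rw [← q6] at b2 b3
  rw [← q8] at b4
  rw [← q1] at b5 b6
  have hfin := s1c_arith (M := 1 + |c|) (δ := δ) (dc := c' - c)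
    (R := (τ ((K * A - A * K) * (K * B - B * K))).re) hM1 hδ.le
    (sub_pos.2 hcc) a5 a6 b5 b6 a1 b1 a2 b2 a3 b3 a4 b4 (by linarith)
  have hMδ : 4 * (1 + |c|) ^ 2 * δ = ε := by
    rw [hδdef]
    field_simp
  linarith

end Pool.Agent.FT
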