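import Pool.Agent.Lib.FT.SpecD

/-!
# C44, block D, module V: an almost maximal position
-/

set_option autoImplicit false

open MeasureTheory

noncomputable section

namespace Pool.Agent.FT

private theorem v_re_smul {D : Type} [CStarAlgebra D] (τ : D →ₗ[ℂ] ℂ) (t : ℝ) (x : D) :
    (τ (t • x)).re = t * (τ x).re := by
  rw [← Complex.coe_smul, map_smul, smul_eq_mul, Complex.re_ofReal_mul]

private theorem v_bd {D : Type} [CStarAlgebra D] {x y : D} {a b : ℝ} (hx : ‖x‖ ≤ a)
    (hy : ‖y‖ ≤ b) (ha : 0 ≤ a) : ‖x * y‖ ≤ a * b :=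
  (norm_mul_le x y).trans (mul_le_mul hx hy (norm_nonneg _) ha)

private theorem v_unit {D : Type} [CStarAlgebra D] {v : D} (hv : star v * v = 1) : ‖v‖ ≤ 1 := by
  have h1 : ‖(1 : D)‖ ≤ 1 := by
    rcases subsingleton_or_nontrivial D with h | h
    · rw [Subsingleton.elim (1 : D) 0, norm_zero]
      exact zero_le_one
    · exact CStarRing.norm_one.le
  have h2 : ‖v‖ * ‖v‖ ≤ 1 := by
    rw [← CStarRing.norm_star_mul_self, hv]
    exact h1
  nlinarith [norm_nonneg v]

theorem pV (hE : S_EXP2) : S_V := by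
  obtain ⟨C, hC0, hC⟩ := hE
  intro D _ τ hτ Q hmono hcl T T' hT hT' hTs hT's hTn hT'n κ hκ
  have hst := hτ.state
  set S : Set ℝ := {x | ∃ N : ℕ, ∃ v ∈ Q N, star v * v = 1 ∧ v * star v = 1 ∧
    x = (τ (v * T * star v * T')).re} with hS
  have hbound : ∀ x ∈ S, x ≤ 1 := by
    rintro x ⟨N, v, -, hv1, -, rfl⟩
    have h1 := v_unit hv1
    have h2 : ‖star v‖ ≤ 1 := by rw [norm_star]; exact h1
    have h3 : ‖v * T * star v * T'‖ ≤ 1 * 1 * 1 * 1 :=
      v_bd (v_bd (v_bd h1 hTn zero_le_one) h2 (by norm_num)) hT'n (by norm_num)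
    have h4 := (Complex.re_le_norm _).trans (hst.norm_le (v * T * star v * T'))
    linarith
  have hne : S.Nonempty := ⟨_, 0, 1, one_mem _, by simp, by simp, rfl⟩
  have hbdd : BddAbove S := ⟨1, hbound⟩
  -- the numbers
  obtain ⟨t, ht0, ht1, ht2, ht3⟩ : ∃ t : ℝ, 0 < t ∧ t ≤ 1 ∧ 2 * C * t ≤ κ / 2 ∧
      2 * C * t ^ 2 + 4 * t ≤ κ ^ 2 / 2 := by
    refine ⟨min 1 (min (κ / (4 * C)) (κ ^ 2 / (2 * (2 * C + 4)))), ?_, min_le_left _ _, ?_, ?_⟩
    · exact lt_min zero_lt_one (lt_min (by positivity) (by positivity))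
    · have h1 : min 1 (min (κ / (4 * C)) (κ ^ 2 / (2 * (2 * C + 4)))) ≤ κ / (4 * C) :=
        (min_le_right _ _).trans (min_le_left _ _)
      rw [le_div_iff₀ (by positivity)] at h1
      linarith
    · set t := min 1 (min (κ / (4 * C)) (κ ^ 2 / (2 * (2 * C + 4)))) with ht
      have h1 : t ≤ κ ^ 2 / (2 * (2 * C + 4)) := (min_le_right _ _).trans (min_le_right _ _)
      have h2 : 0 < t := lt_min zero_lt_one (lt_min (by positivity) (by positivity))
      have h3 : t ≤ 1 := min_le_left _ _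
      rw [le_div_iff₀ (by positivity)] at h1
      have h4 : t ^ 2 ≤ t := by nlinarith
      nlinarith
  obtain ⟨e, he0, he1, he2⟩ : ∃ e : ℝ, 0 < e ∧ e ≤ t ^ 2 * κ / 4 ∧ e ≤ t * κ ^ 2 / 4 :=
    ⟨min (t ^ 2 * κ / 4) (t * κ ^ 2 / 4), lt_min (by positivity) (by positivity),
      min_le_left _ _, min_le_right _ _⟩
  obtain ⟨x, hxS, hx⟩ := exists_lt_of_lt_csSup hne (sub_lt_self (sSup S) he0)
  obtain ⟨N, v, hvQ, hv1, hv2, hxv⟩ := hxS
  have hvn := v_unit hv1
  have hvn' : ‖star v‖ ≤ 1 := by rw [norm_star]; exact hvn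
  refine ⟨N, v, hvQ, hv1, hv2, ?_⟩
  set A := v * T * star v with hA
  clear_value A
  have hAQ : A ∈ Q N := by
    rw [hA]
    exact mul_mem (mul_mem hvQ (hmono (Nat.zero_le N) hT)) (star_mem hvQ)
  have hAs : star A = A := by
    rw [hA, star_mul, star_mul, star_star, hTs, mul_assoc]
  have hAn : ‖A‖ ≤ 1 := by
    have h3 : ‖v * T * star v‖ ≤ 1 * 1 * 1 := v_bd (v_bd hvn hTn zero_le_one) hvn' (by norm_num)
    rw [hA]
    linarith
  have key : ∀ K ∈ Q (N + 2), star K = -K → ‖K‖ ≤ 1 →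
      t * (τ ((K * A - A * K) * T')).re +
        t ^ 2 / 2 * (τ ((K * (K * A - A * K) - (K * A - A * K) * K) * T')).re ≤ e + C * t ^ 3 := by
    intro K hK hKs hKn
    let _ : NormedAlgebra ℚ D := NormedAlgebra.restrictScalars ℚ ℂ D
    set u := NormedSpace.exp (t • K) with hu
    have hKt : t • K ∈ Q (N + 2) := by
      rw [← Complex.coe_smul]
      exact (Q (N + 2)).smul_mem hK _
    have huQ : u ∈ Q (N + 2) := NormedSpace.exp_mem (R := ℂ) (hcl (N + 2)) hKt
    have hsk : t • K ∈ skewAdjoint D := by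
      rw [skewAdjoint.mem_iff, star_smul, hKs, smul_neg]
      simp
    have huu := NormedSpace.exp_mem_unitary_of_mem_skewAdjoint hsk
    have hu1 : star u * u = 1 := (Unitary.mem_iff.1 huu).1
    have hu2 : u * star u = 1 := (Unitary.mem_iff.1 huu).2
    have hus : star u = NormedSpace.exp (-(t • K)) := by
      rw [hu, NormedSpace.star_exp, skewAdjoint.mem_iff.1 hsk]
    have h1 : (τ (u * v * T * star (u * v) * T')).re ≤ sSup S := by
      refine le_csSup hbdd ⟨N + 2, u * v, mul_mem huQ (hmono (by omega) hvQ), ?_, ?_, rfl⟩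
      · rw [star_mul, mul_assoc, ← mul_assoc (star u), hu1, one_mul, hv1]
      · rw [star_mul, mul_assoc, ← mul_assoc v, hv2, one_mul, hu2]
    have h2 : u * v * T * star (u * v) * T' = u * A * star u * T' := by
      rw [hA, star_mul]
      simp only [mul_assoc]
    rw [h2] at h1
    have h3 := hC D K A t hKn hAn ht0.le ht1
    rw [← hus, ← hu] at h3
    set B := K * A - A * K with hB
    set M := A + t • B + (t ^ 2 / 2) • (K * B - B * K) with hM
    have h4 : ‖(u * A * star u - M) * T'‖ ≤ C * t ^ 3 * 1 := v_bd h3 hT'n (by positivity)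
    have h5 := (Complex.abs_re_le_norm _).trans ((hst.norm_le _).trans h4)
    rw [sub_mul, map_sub, Complex.sub_re] at h5
    have h6 := (abs_le.1 h5).1
    have h7 : (τ (M * T')).re = (τ (A * T')).re + t * (τ (B * T')).re +
        t ^ 2 / 2 * (τ ((K * B - B * K) * T')).re := by
      rw [hM, add_mul, add_mul, smul_mul_assoc, smul_mul_assoc, map_add, map_add,
        Complex.add_re, Complex.add_re, v_re_smul, v_re_smul]
    linarith
  -- the symmetric form
  have key2 : ∀ K ∈ Q (N + 2), star K = -K → ‖K‖ ≤ 1 →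
      (τ ((K * (K * A - A * K) - (K * A - A * K) * K) * T')).re ≤ κ := by
    intro K hK hKs hKn
    have h1 := key K hK hKs hKn
    have h2 := key (-K) (neg_mem hK) (by rw [star_neg, hKs]) (by rw [norm_neg]; exact hKn)
    have h3 : -K * A - A * -K = -(K * A - A * K) := by noncomm_ring
    have h4 : -K * (-K * A - A * -K) - (-K * A - A * -K) * -K =
        K * (K * A - A * K) - (K * A - A * K) * K := by noncomm_ring
    rw [h4, h3, neg_mul, map_neg, Complex.neg_re] at h2
    set y := (τ ((K * (K * A - A * K) - (K * A - A * K) * K) * T')).re with hy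
    have h5 : t ^ 2 * y ≤ t ^ 2 * κ := by
      have h6 : 2 * C * t * t ^ 2 ≤ κ / 2 * t ^ 2 := mul_le_mul_of_nonneg_right ht2 (by positivity)
      nlinarith
    exact le_of_mul_le_mul_left h5 (by positivity)
  constructor
  · set K₀ : D := (1 / 2 : ℂ) • (T' * A - A * T') with hK₀
    have hK₀Q : K₀ ∈ Q (N + 2) := by
      refine (Q (N + 2)).smul_mem ?_ _
      have hAQ' : A ∈ Q (N + 2) := hmono (by omega) hAQ
      have hT'Q' : T' ∈ Q (N + 2) := hmono (by omega) hT'
      exact sub_mem (mul_mem hT'Q' hAQ') (mul_mem hAQ' hT'Q')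
    have hK₀s : star K₀ = -K₀ := by
      rw [hK₀, star_smul, star_sub, star_mul, star_mul, hAs, hT's, ← smul_neg, neg_sub]
      simp
    have hK₀n : ‖K₀‖ ≤ 1 := by
      have h1 : ‖T' * A - A * T'‖ ≤ 1 * 1 + 1 * 1 :=
        (norm_sub_le _ _).trans (add_le_add (v_bd hT'n hAn zero_le_one)
          (v_bd hAn hT'n zero_le_one))
      rw [hK₀, norm_smul]
      have h2 : ‖(1 / 2 : ℂ)‖ = 1 / 2 := by simp
      rw [h2]
      linarith
    have h1 := key K₀ hK₀Q hK₀s hK₀n
    have h2 : A * T' - T' * A = (-2 : ℂ) • K₀ := by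
      rw [hK₀, smul_smul]
      norm_num
    have h3 : (τ ((K₀ * A - A * K₀) * T')).re = 2 * n2 τ K₀ ^ 2 := by
      have h4 : τ ((K₀ * A - A * K₀) * T') = τ (K₀ * (A * T' - T' * A)) := by
        rw [sub_mul, mul_sub, map_sub, map_sub, ← mul_assoc K₀ T' A, mul_assoc A K₀ T',
          hτ.trace A (K₀ * T'), mul_assoc K₀ A T']
      rw [h4, h2, mul_smul_comm, map_smul, hst.n2_sq, hK₀s, neg_mul, map_neg, smul_eq_mul,
        Complex.mul_re, Complex.neg_re]
      simp
    have h5 : ‖K₀ * A - A * K₀‖ ≤ 2 := by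
      have h6 : ‖K₀ * A - A * K₀‖ ≤ 1 * 1 + 1 * 1 :=
        (norm_sub_le _ _).trans (add_le_add (v_bd hK₀n hAn zero_le_one)
          (v_bd hAn hK₀n zero_le_one))
      linarith
    have h6 : ‖(K₀ * (K₀ * A - A * K₀) - (K₀ * A - A * K₀) * K₀) * T'‖ ≤
        (1 * 2 + 2 * 1) * 1 := by
      refine v_bd ((norm_sub_le _ _).trans (add_le_add (v_bd hK₀n h5 zero_le_one)
        (v_bd h5 hK₀n (by norm_num)))) hT'n (by norm_num)
    have h7 := (abs_le.1 ((Complex.abs_re_le_norm _).trans ((hst.norm_le _).trans h6))).1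
    have h8 : n2 τ (A * T' - T' * A) = 2 * n2 τ K₀ := by
      rw [h2, hst.n2_smul]
      simp
    rw [h3] at h1
    set y := (τ ((K₀ * (K₀ * A - A * K₀) - (K₀ * A - A * K₀) * K₀) * T')).re with hy
    have h9 : t * (2 * n2 τ K₀ ^ 2) ≤ t * (κ ^ 2 / 2) := by
      have h10 : t * (2 * C * t ^ 2 + 4 * t) ≤ t * (κ ^ 2 / 2) :=
        mul_le_mul_of_nonneg_left ht3 ht0.le
      have h11 : -(2 * t ^ 2) ≤ t ^ 2 / 2 * y := by nlinarith [sq_nonneg t]
      nlinarith
    have h12 := le_of_mul_le_mul_left h9 ht0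
    rw [h8]
    have h13 := n2_nonneg τ K₀
    exact abs_le_of_sq_le_sq' (by nlinarith) hκ.le |>.2
  · intro K hK hKs hKn
    have h1 := key2 K hK hKs hKn
    have h2 : ∀ B : D, τ ((K * B - B * K) * T') = -τ (B * (K * T' - T' * K)) := by
      intro B
      rw [sub_mul, mul_sub, map_sub, map_sub, mul_assoc K B T', hτ.trace K (B * T'), neg_sub,
        mul_assoc B T' K, mul_assoc B K T']
    rw [h2, Complex.neg_re] at h1
    exact h1

end Pool.Agent.FT
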